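import Mathlib

set_option autoImplicit false

/-!
# Rigidity of wreath-like extensions

`Ext Q H` says that `H` is an extension of `Q` by a group which is central-by-`ℤ[Q]`. An
isomorphism between two such groups is, modulo the central part, given by an automorphism of `Q`
and a right translation up to sign.
-/

namespace Pool.Agent.H139R3.BO

open Finsupp

noncomputable section

variable {Q : Type} [Group Q]

/-- left translation on finitely supported functions -/
def tr (q : Q) : (Q →₀ ℤ) →+ (Q →₀ ℤ) where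
  toFun v := v.equivMapDomain (Equiv.mulLeft q)
  map_zero' := by ext; simp
  map_add' v w := by ext; simp

theorem tr_apply (q : Q) (v : Q →₀ ℤ) (x : Q) : tr q v x = v (q⁻¹ * x) := rfl

theorem tr_single (q x : Q) (n : ℤ) : tr q (single x n) = single (q * x) n := by
  show (single x n).equivMapDomain (Equiv.mulLeft q) = _
  rw [Finsupp.equivMapDomain_single]
  rfl

theorem tr_mul (q r : Q) (v : Q →₀ ℤ) : tr (q * r) v = tr q (tr r v) := by
  ext x
  simp [tr_apply, mul_assoc]

theorem tr_one (v : Q →₀ ℤ) : tr 1 v = v := by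
  ext x
  simp [tr_apply]

theorem tr_inv_tr (q : Q) (v : Q →₀ ℤ) : tr q⁻¹ (tr q v) = v := by
  rw [← tr_mul, inv_mul_cancel, tr_one]

theorem tr_tr_inv (q : Q) (v : Q →₀ ℤ) : tr q (tr q⁻¹ v) = v := by
  rw [← tr_mul, mul_inv_cancel, tr_one]

structure Ext (Q H : Type) [Group Q] [Group H] where
  π : H →* Q
  v : H → (Q →₀ ℤ)
  v_mul : ∀ x y, v (x * y) = v x + tr (π x) (v y)
  ι : Q → H
  π_ι : ∀ q, π (ι q) = q
  e : H
  π_e : π e = 1
  v_e : v e = single 1 1
  cen : ∀ x, π x = 1 → v x = 0 → ∀ y, x * y = y * x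

namespace Ext

variable {H : Type} [Group H] (E : Ext Q H)

theorem v_one : E.v 1 = 0 := by
  have h := E.v_mul 1 1
  rw [mul_one, map_one, tr_one] at h
  exact left_eq_add.1 h

theorem v_inv (x : H) : E.v x⁻¹ = - tr (E.π x)⁻¹ (E.v x) := by
  have h := E.v_mul x⁻¹ x
  rw [inv_mul_cancel, v_one, map_inv] at h
  exact eq_neg_of_add_eq_zero_left h.symm

theorem v_conj (y k : H) (hk : E.π k = 1) : E.v (y * k * y⁻¹) = tr (E.π y) (E.v k) := by
  rw [E.v_mul, E.v_mul, E.v_inv, map_mul, hk, mul_one, map_neg, tr_tr_inv]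
  abel

theorem v_div (x y : H) (h : E.π x = E.π y) : E.v (x * y⁻¹) = E.v x - E.v y := by
  rw [E.v_mul, E.v_inv, h, map_neg, tr_tr_inv]
  abel

theorem v_mul_K (x y : H) (h : E.π x = 1) : E.v (x * y) = E.v x + E.v y := by
  rw [E.v_mul, h, tr_one]

theorem π_conj (y k : H) (hk : E.π k = 1) : E.π (y * k * y⁻¹) = 1 := by
  rw [map_mul, map_mul, hk, mul_one, map_inv, mul_inv_cancel]

theorem v_of_central [Infinite Q] (x : H) (hx : E.π x = 1) (hc : ∀ y, x * y = y * x) :
    E.v x = 0 := by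
  by_contra hne
  obtain ⟨r, hr⟩ := Finsupp.ne_iff.1 hne
  have h1 : ∀ q : Q, E.v x (q⁻¹ * r) = E.v x r := by
    intro q
    have h2 := E.v_conj (E.ι q) x hx
    rw [← hc (E.ι q), mul_inv_cancel_right, E.π_ι] at h2
    have h3 := DFunLike.congr_fun h2 r
    rw [tr_apply] at h3
    exact h3.symm
  have h2 : (Set.range fun q : Q => q⁻¹ * r) ⊆ (E.v x).support := by
    rintro _ ⟨q, rfl⟩
    rw [Finset.mem_coe, Finsupp.mem_support_iff]
    beta_reduce
    rw [h1 q]
    exact hr
  have h3 : Function.Injective fun q : Q => q⁻¹ * r := by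
    intro q q' h
    exact inv_injective (mul_right_cancel h)
  exact Set.infinite_range_of_injective h3 ((E.v x).support.finite_toSet.subset h2)

/-- The characteristic property of the kernel of `π`. -/
def InK (x : H) : Prop := ∀ g y : H,
  (x * (g * x * g⁻¹) * ((g * x * g⁻¹) * x)⁻¹) * y = y * (x * (g * x * g⁻¹) * ((g * x * g⁻¹) * x)⁻¹)

theorem inK_of (x : H) (hx : E.π x = 1) : InK x := by
  intro g y
  have h1 : E.π (g * x * g⁻¹) = 1 := E.π_conj g x hx
  generalize g * x * g⁻¹ = k at h1 ⊢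
  refine E.cen _ ?_ ?_ y
  · rw [map_mul, map_mul, map_inv, map_mul, hx, h1]
    simp
  · rw [E.v_div _ _ (by rw [map_mul, map_mul, hx, h1]), E.v_mul_K _ _ hx, E.v_mul_K _ _ h1]
    abel

theorem of_inK [Infinite Q] (x : H) (hx : InK x) : E.π x = 1 := by
  by_contra hne
  have h1 := hx E.e
  obtain ⟨y, hy⟩ : ∃ y, y = E.e * x * E.e⁻¹ := ⟨_, rfl⟩
  rw [← hy] at h1
  have hπ : E.π y = E.π x := by
    rw [hy, map_mul, map_mul, map_inv, E.π_e]
    simp
  have hπ2 : E.π (x * y * (y * x)⁻¹) = 1 := by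
    rw [map_mul, map_inv, map_mul, map_mul, hπ]
    simp
  have h2 := E.v_of_central _ hπ2 h1
  have hvy : E.v y = single 1 1 + E.v x - single (E.π x) 1 := by
    rw [hy, E.v_mul, E.v_mul, E.v_e, E.π_e, tr_one, map_mul, E.π_e, one_mul, E.v_inv, E.π_e,
      inv_one, tr_one, E.v_e, map_neg, tr_single, mul_one]
    abel
  rw [E.v_div _ _ (by rw [map_mul, map_mul, hπ]), E.v_mul, E.v_mul, hπ, hvy] at h2
  rw [map_sub, map_add, tr_single, tr_single, mul_one] at h2
  have h3 := DFunLike.congr_fun h2 (E.π x)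
  have hne2 : E.π x * E.π x ≠ E.π x := by
    intro h
    exact hne (mul_eq_left.1 h)
  have hne3 : (1 : Q) ≠ E.π x := fun h => hne h.symm
  simp only [Finsupp.coe_sub, Finsupp.coe_add, Pi.sub_apply, Pi.add_apply, Finsupp.coe_zero,
    Pi.zero_apply, single_eq_same, Finsupp.single_eq_of_ne hne2.symm,
    Finsupp.single_eq_of_ne hne3.symm] at h3
  omega

/-- every finitely supported function is a value of `v` on the kernel -/
theorem exists_lift (w : Q →₀ ℤ) : ∃ x, E.π x = 1 ∧ E.v x = w := by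
  let V : AddSubgroup (Q →₀ ℤ) :=
    { carrier := {w | ∃ x, E.π x = 1 ∧ E.v x = w}
      add_mem' := by
        rintro w w' ⟨x, hx, rfl⟩ ⟨x', hx', rfl⟩
        exact ⟨x * x', by rw [map_mul, hx, hx', mul_one], E.v_mul_K _ _ hx⟩
      zero_mem' := ⟨1, map_one _, E.v_one⟩
      neg_mem' := by
        rintro w ⟨x, hx, rfl⟩
        refine ⟨x⁻¹, by rw [map_inv, hx, inv_one], ?_⟩
        rw [E.v_inv, hx, inv_one, tr_one] }
  have h1 : ∀ q : Q, single q 1 ∈ V := by
    intro q
    refine ⟨E.ι q * E.e * (E.ι q)⁻¹, E.π_conj _ _ E.π_e, ?_⟩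
    rw [E.v_conj _ _ E.π_e, E.π_ι, E.v_e, tr_single, mul_one]
  have h2 : ∀ w : Q →₀ ℤ, w ∈ V := by
    intro w
    induction w using Finsupp.induction_linear with
    | zero => exact V.zero_mem
    | add f g hf hg => exact V.add_mem hf hg
    | single q n =>
      have : single q n = n • (single q (1 : ℤ)) := by
        rw [Finsupp.smul_single, smul_eq_mul, mul_one]
      rw [this]
      exact V.zsmul_mem (h1 q) n
  exact h2 w

end Ext

theorem inK_map {H H' : Type} [Group H] [Group H'] (φ : H ≃* H') (x : H) (hx : Ext.InK x) :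
    Ext.InK (φ x) := by
  intro g y
  obtain ⟨g, rfl⟩ := φ.surjective g
  obtain ⟨y, rfl⟩ := φ.surjective y
  have := congrArg φ (hx g y)
  simpa only [map_mul, map_inv] using this

section iso

variable [Infinite Q] {H H' : Type} [Group H] [Group H'] (E : Ext Q H) (E' : Ext Q H')
  (φ : H ≃* H')

theorem pi_iff (x : H) : E.π x = 1 ↔ E'.π (φ x) = 1 := by
  constructor
  · intro h
    exact E'.of_inK _ (inK_map φ x (E.inK_of x h))
  · intro h
    have := inK_map φ.symm (φ x) (E'.inK_of _ h)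
    rw [MulEquiv.symm_apply_apply] at this
    exact E.of_inK _ this

/-- the induced map on `Q` -/
def qb (q : Q) : Q := E'.π (φ (E.ι q))

theorem qb_pi (x : H) : E'.π (φ x) = qb E E' φ (E.π x) := by
  have h1 : E.π (x * (E.ι (E.π x))⁻¹) = 1 := by
    rw [map_mul, map_inv, E.π_ι, mul_inv_cancel]
  have h2 := (pi_iff E E' φ _).1 h1
  rw [map_mul, map_inv, map_mul, map_inv, mul_inv_eq_one] at h2
  exact h2

/-- the induced automorphism of `Q` -/
def qbE : Q ≃* Q where
  toFun := qb E E' φ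
  invFun := qb E' E φ.symm
  left_inv q := by
    have h := qb_pi E' E φ.symm (φ (E.ι q))
    rw [MulEquiv.symm_apply_apply, E.π_ι] at h
    exact h.symm
  right_inv q := by
    have h := qb_pi E E' φ (φ.symm (E'.ι q))
    rw [MulEquiv.apply_symm_apply, E'.π_ι] at h
    exact h.symm
  map_mul' q r := by
    have h := qb_pi E E' φ (E.ι q * E.ι r)
    rw [map_mul, map_mul, map_mul, E.π_ι, E.π_ι] at h
    exact h.symm

theorem qbE_pi (x : H) : E'.π (φ x) = qbE E E' φ (E.π x) := qb_pi E E' φ x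

theorem v_zero_of (x : H) (hx : E.π x = 1) (hv : E.v x = 0) : E'.v (φ x) = 0 := by
  refine E'.v_of_central _ ((pi_iff E E' φ x).1 hx) ?_
  intro y
  obtain ⟨y, rfl⟩ := φ.surjective y
  rw [← map_mul, ← map_mul, E.cen x hx hv y]

theorem v_congr (x x' : H) (hx : E.π x = 1) (hx' : E.π x' = 1) (hv : E.v x = E.v x') :
    E'.v (φ x) = E'.v (φ x') := by
  have h1 : E.v (x * x'⁻¹) = 0 := by
    rw [E.v_div _ _ (hx.trans hx'.symm), hv, sub_self]
  have h2 := v_zero_of E E' φ _ (by rw [map_mul, map_inv, hx, hx']; simp) h1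
  have h3 : E'.π (φ x) = E'.π (φ x') := by
    rw [(pi_iff E E' φ x).1 hx, (pi_iff E E' φ x').1 hx']
  rw [map_mul, map_inv, E'.v_div _ _ h3] at h2
  exact sub_eq_zero.1 h2

/-- the induced map on functions -/
def Psi : (Q →₀ ℤ) →+ (Q →₀ ℤ) where
  toFun w := E'.v (φ (E.exists_lift w).choose)
  map_zero' := by
    have h := (E.exists_lift 0).choose_spec
    exact v_zero_of E E' φ _ h.1 h.2
  map_add' w w' := by
    have h := (E.exists_lift w).choose_spec
    have h' := (E.exists_lift w').choose_spec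
    have h'' := (E.exists_lift (w + w')).choose_spec
    rw [← E'.v_mul_K _ _ ((pi_iff E E' φ _).1 h.1), ← map_mul]
    refine v_congr E E' φ _ _ h''.1 ?_ ?_
    · rw [map_mul, h.1, h'.1, mul_one]
    · rw [h''.2, E.v_mul_K _ _ h.1, h.2, h'.2]

theorem Psi_v (x : H) (hx : E.π x = 1) : Psi E E' φ (E.v x) = E'.v (φ x) := by
  have h := (E.exists_lift (E.v x)).choose_spec
  exact v_congr E E' φ _ _ h.1 hx h.2

theorem Psi_tr (q : Q) (w : Q →₀ ℤ) :
    Psi E E' φ (tr q w) = tr (qbE E E' φ q) (Psi E E' φ w) := by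
  obtain ⟨x, hx, rfl⟩ := E.exists_lift w
  have h1 := E.v_conj (E.ι q) x hx
  rw [E.π_ι] at h1
  rw [← h1, Psi_v E E' φ _ (E.π_conj _ _ hx), Psi_v E E' φ _ hx, map_mul, map_mul, map_inv,
    E'.v_conj _ _ ((pi_iff E E' φ x).1 hx), qbE_pi E E' φ, E.π_ι]

theorem Psi_single (q : Q) (n : ℤ) : Psi E E' φ (single q n) =
    n • tr (qbE E E' φ q) (Psi E E' φ (single 1 1)) := by
  have h1 : single q n = n • tr q (single (1 : Q) (1 : ℤ)) := by
    rw [tr_single, mul_one, Finsupp.smul_single, smul_eq_mul, mul_one]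
  rw [h1, map_zsmul, Psi_tr]

theorem Psi_surj (w : Q →₀ ℤ) : ∃ w', Psi E E' φ w' = w := by
  obtain ⟨y, hy, rfl⟩ := E'.exists_lift w
  obtain ⟨x, rfl⟩ := φ.surjective y
  exact ⟨E.v x, Psi_v E E' φ x ((pi_iff E E' φ x).2 hy)⟩

theorem Psi_apply (w : Q →₀ ℤ) (r : Q) : Psi E E' φ w r =
    ∑ q ∈ w.support, w q * Psi E E' φ (single 1 1) ((qbE E E' φ q)⁻¹ * r) := by
  conv_lhs => rw [← Finsupp.sum_single w]
  unfold Finsupp.sum
  rw [map_sum, Finsupp.finsetSum_apply]
  refine Finset.sum_congr rfl fun q _ => ?_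
  rw [Psi_single, Finsupp.smul_apply, tr_apply, smul_eq_mul]

variable [TwoUniqueProds Q]

theorem unit_single : ∃ (q0 : Q) (n : ℤ), (n = 1 ∨ n = -1) ∧
    Psi E E' φ (single 1 1) = single q0 n := by
  classical
  obtain ⟨w, hw⟩ := Psi_surj E E' φ (single 1 1)
  set u := Psi E E' φ (single 1 1) with hu
  let A : Finset Q := w.support.image (qbE E E' φ)
  have hw0 : w ≠ 0 := by
    rintro rfl
    rw [map_zero] at hw
    have := DFunLike.congr_fun hw 1
    rw [single_eq_same] at this
    exact absurd this (by simp)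
  have hu0 : u ≠ 0 := by
    intro h
    have h1 := DFunLike.congr_fun hw 1
    rw [Psi_apply, ← hu, h] at h1
    rw [single_eq_same] at h1
    simp at h1
  have hval : ∀ p ∈ A, ∀ q ∈ u.support, UniqueMul A u.support p q →
      single (1 : Q) (1 : ℤ) (p * q) ≠ 0 := by
    intro p hp q hq hun
    obtain ⟨p', hp', rfl⟩ := Finset.mem_image.1 hp
    rw [← hw, Psi_apply, ← hu, Finset.sum_eq_single p']
    · rw [inv_mul_cancel_left]
      exact mul_ne_zero (Finsupp.mem_support_iff.1 hp') (Finsupp.mem_support_iff.1 hq)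
    · intro b hb hbp
      by_contra hcon
      have h1 : (qbE E E' φ b)⁻¹ * (qbE E E' φ p' * q) ∈ u.support := by
        rw [Finsupp.mem_support_iff]
        exact right_ne_zero_of_mul hcon
      have h2 := hun (Finset.mem_image_of_mem _ hb) h1 (by rw [mul_inv_cancel_left])
      exact hbp ((qbE E E' φ).injective h2.1)
    · intro h
      exact absurd hp' h
  have hone : ∀ p q : Q, single (1 : Q) (1 : ℤ) (p * q) ≠ 0 → p * q = 1 := by
    intro p q h
    by_contra h1
    exact h (Finsupp.single_eq_of_ne h1)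
  have hcard : ¬ 1 < A.card * u.support.card := by
    intro hc
    obtain ⟨p1, hp1, p2, hp2, hne, hu1, hu2⟩ := TwoUniqueProds.uniqueMul_of_one_lt_card hc
    rw [Finset.mem_product] at hp1 hp2
    have e1 := hone _ _ (hval _ hp1.1 _ hp1.2 hu1)
    have e2 := hone _ _ (hval _ hp2.1 _ hp2.2 hu2)
    have h3 := hu1 hp2.1 hp2.2 (e2.trans e1.symm)
    exact hne (Prod.ext h3.1.symm h3.2.symm)
  have hA : 0 < A.card := by
    rw [Finset.card_pos, Finset.image_nonempty]
    exact Finsupp.support_nonempty_iff.2 hw0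
  have hU : 0 < u.support.card := by
    rw [Finset.card_pos]
    exact Finsupp.support_nonempty_iff.2 hu0
  have hU1 : u.support.card = 1 := by
    by_contra hne
    have : 2 ≤ u.support.card := by omega
    apply hcard
    calc 1 < 1 * 2 := by norm_num
      _ ≤ A.card * u.support.card := Nat.mul_le_mul hA this
  have hA1 : A.card = 1 := by
    by_contra hne
    have : 2 ≤ A.card := by omega
    apply hcard
    calc 1 < 2 * 1 := by norm_num
      _ ≤ A.card * u.support.card := Nat.mul_le_mul this hU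
  obtain ⟨q0, n, hn, hun⟩ := Finsupp.card_support_eq_one'.1 hU1
  obtain ⟨q1, m, hm, hwm⟩ := Finsupp.card_support_eq_one'.1 (show w.support.card = 1 by
    rw [← hA1]
    exact (Finset.card_image_of_injective _ (qbE E E' φ).injective).symm)
  refine ⟨q0, n, ?_, hun⟩
  rw [hwm, Psi_single, ← hu, hun, tr_single, Finsupp.smul_single, smul_eq_mul] at hw
  have h1 := DFunLike.congr_fun hw 1
  rw [single_eq_same] at h1
  by_cases h2 : qbE E E' φ q1 * q0 = 1
  · rw [h2, single_eq_same] at h1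
    exact Int.eq_one_or_neg_one_of_mul_eq_one (by rw [mul_comm]; exact h1)
  · rw [Finsupp.single_eq_of_ne (Ne.symm h2)] at h1
    exact absurd h1 (by norm_num)

/-- Rigidity: an isomorphism is given, modulo the centre, by an automorphism of `Q`, a right
translation and a sign. -/
theorem rigidity : ∃ (α : Q ≃* Q) (q0 : Q) (n : ℤ), (n = 1 ∨ n = -1) ∧
    (∀ x, E'.π (φ x) = α (E.π x)) ∧
    ∀ x, E.π x = 1 → E'.v (φ x) = n • (E.v x).mapDomain (fun q => α q * q0) := by
  obtain ⟨q0, n, hn, hu⟩ := unit_single E E' φ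
  refine ⟨qbE E E' φ, q0, n, hn, qbE_pi E E' φ, ?_⟩
  intro x hx
  rw [← Psi_v E E' φ x hx]
  generalize E.v x = w
  induction w using Finsupp.induction_linear with
  | zero => simp
  | add f g hf hg => rw [map_add, hf, hg, Finsupp.mapDomain_add, smul_add]
  | single q m =>
    rw [Psi_single, hu, tr_single, Finsupp.mapDomain_single, Finsupp.smul_single,
      Finsupp.smul_single, smul_eq_mul, smul_eq_mul, mul_comm]

end iso

end

end Pool.Agent.H139R3.BO
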