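import Mathlib

set_option autoImplicit false

/-!
# A bi-invariant linear order on the free group of rank two

The free group is embedded in the matrices over `ℤ[X]` congruent to the identity modulo `X`.
-/

namespace Pool.Agent.H139R3.BO

open Polynomial Matrix

noncomputable section

/-- The unipotent subgroup attached to an element of square zero. -/
def unip {R : Type} [Ring R] (N : R) (hN : N * N = 0) : Multiplicative ℤ →* Rˣ where
  toFun n := ⟨1 + (Multiplicative.toAdd n) • N, 1 - (Multiplicative.toAdd n) • N,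
    by
      simp only [add_mul, mul_sub, one_mul, mul_one, smul_mul_assoc, mul_smul_comm, hN, smul_zero]
      abel,
    by
      simp only [sub_mul, mul_add, one_mul, mul_one, smul_mul_assoc, mul_smul_comm, hN, smul_zero]
      abel⟩
  map_one' := by
    ext
    simp
  map_mul' m n := by
    ext
    simp only [toAdd_mul, Units.val_mul, add_mul, mul_add, one_mul, mul_one, smul_mul_assoc,
      mul_smul_comm, hN, smul_zero, add_smul]
    abel

abbrev MM := Matrix (Fin 2) (Fin 2) ℤ[X]

def N0 : MM := !![0, X; 0, 0]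
def N1 : MM := !![0, 0; X, 0]

theorem N0_sq : N0 * N0 = 0 := by
  unfold N0
  ext i j
  fin_cases i <;> fin_cases j <;> simp [Matrix.mul_apply]

theorem N1_sq : N1 * N1 = 0 := by
  unfold N1
  ext i j
  fin_cases i <;> fin_cases j <;> simp [Matrix.mul_apply]

/-- The two generating matrices. -/
def gm : Fin 2 → MMˣ := ![unip N0 N0_sq (Multiplicative.ofAdd 1), unip N1 N1_sq (Multiplicative.ofAdd 1)]

/-- The representation. -/
def rho : FreeGroup (Fin 2) →* MMˣ := FreeGroup.lift gm

/-- matrices congruent to one modulo `X` -/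
def Cong (M : MM) : Prop := ∃ M' : MM, M = 1 + (X : ℤ[X]) • M'

theorem cong_mul {M N : MM} (hM : Cong M) (hN : Cong N) : Cong (M * N) := by
  obtain ⟨M', rfl⟩ := hM
  obtain ⟨N', rfl⟩ := hN
  refine ⟨N' + M' + (X : ℤ[X]) • (M' * N'), ?_⟩
  simp only [add_mul, mul_add, one_mul, mul_one, smul_mul_assoc, mul_smul_comm, smul_add]
  abel

theorem cong_rho (g : FreeGroup (Fin 2)) : Cong (rho g : MM) := by
  have key : ∀ (N : MM) (hN : N * N = 0) (hX : ∃ N', N = (X : ℤ[X]) • N') (n : Multiplicative ℤ),
      Cong (unip N hN n : MM) := by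
    rintro N hN ⟨N', hN'⟩ n
    refine ⟨(Multiplicative.toAdd n) • N', ?_⟩
    show 1 + (Multiplicative.toAdd n) • N = _
    rw [hN', smul_comm]
  have h0 : ∃ N', N0 = (X : ℤ[X]) • N' := by
    refine ⟨!![0, 1; 0, 0], ?_⟩
    ext i j
    fin_cases i <;> fin_cases j <;> simp [N0]
  have h1 : ∃ N', N1 = (X : ℤ[X]) • N' := by
    refine ⟨!![0, 0; 1, 0], ?_⟩
    ext i j
    fin_cases i <;> fin_cases j <;> simp [N1]
  induction g using FreeGroup.induction_on with
  | C1 =>
    refine ⟨0, ?_⟩
    simp
  | of i =>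
    unfold rho
    rw [FreeGroup.lift_apply_of]
    fin_cases i
    · exact key N0 N0_sq h0 _
    · exact key N1 N1_sq h1 _
  | inv_of i ih =>
    unfold rho
    rw [map_inv, FreeGroup.lift_apply_of]
    fin_cases i
    · show Cong (((unip N0 N0_sq (Multiplicative.ofAdd 1))⁻¹ : MMˣ) : MM)
      rw [← map_inv]
      exact key N0 N0_sq h0 _
    · show Cong (((unip N1 N1_sq (Multiplicative.ofAdd 1))⁻¹ : MMˣ) : MM)
      rw [← map_inv]
      exact key N1 N1_sq h1 _
  | mul x y hx hy =>
    rw [map_mul, Units.val_mul]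
    exact cong_mul hx hy

/-- all coefficients below `k` vanish -/
def Van (k : ℕ) (D : MM) : Prop := ∀ i j, ∀ l < k, (D i j).coeff l = 0

theorem van_mul_left {k : ℕ} {D : MM} (hD : Van k D) (C : MM) : Van k (C * D) := by
  intro i j l hl
  rw [Matrix.mul_apply, Polynomial.finsetSum_coeff]
  refine Finset.sum_eq_zero fun t _ => ?_
  rw [Polynomial.coeff_mul]
  refine Finset.sum_eq_zero fun p hp => ?_
  rw [Finset.HasAntidiagonal.mem_antidiagonal] at hp
  rw [hD t j p.2 (by omega), mul_zero]

theorem van_mul_right {k : ℕ} {D : MM} (hD : Van k D) (C : MM) : Van k (D * C) := by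
  intro i j l hl
  rw [Matrix.mul_apply, Polynomial.finsetSum_coeff]
  refine Finset.sum_eq_zero fun t _ => ?_
  rw [Polynomial.coeff_mul]
  refine Finset.sum_eq_zero fun p hp => ?_
  rw [Finset.HasAntidiagonal.mem_antidiagonal] at hp
  rw [hD i t p.1 (by omega), zero_mul]

theorem coeff_smul_X (k : ℕ) (D : MM) (hD : Van k D) (i j : Fin 2) (l : ℕ) (hl : l ≤ k) :
    (((X : ℤ[X]) • D) i j).coeff l = 0 := by
  rw [Matrix.smul_apply, smul_eq_mul]
  cases l with
  | zero => simp
  | succ l => rw [Polynomial.coeff_X_mul]; exact hD i j l (by omega)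

theorem coeff_left {k : ℕ} {D : MM} (hD : Van k D) {C : MM} (hC : Cong C) (i j : Fin 2) (l : ℕ)
    (hl : l ≤ k) : ((C * D) i j).coeff l = (D i j).coeff l := by
  obtain ⟨C', rfl⟩ := hC
  rw [add_mul, one_mul, smul_mul_assoc, Matrix.add_apply, Polynomial.coeff_add,
    coeff_smul_X k _ (van_mul_left hD C') i j l hl, add_zero]

theorem coeff_right {k : ℕ} {D : MM} (hD : Van k D) {C : MM} (hC : Cong C) (i j : Fin 2) (l : ℕ)
    (hl : l ≤ k) : ((D * C) i j).coeff l = (D i j).coeff l := by
  obtain ⟨C', rfl⟩ := hC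
  rw [mul_add, mul_one, mul_smul_comm, Matrix.add_apply, Polynomial.coeff_add,
    coeff_smul_X k _ (van_mul_right hD C') i j l hl, add_zero]

/-- the row and column attached to a residue modulo four -/
def rc (n : ℕ) : Fin 2 × Fin 2 := (if n % 4 < 2 then 0 else 1, if n % 2 = 0 then 0 else 1)

theorem exists_rc (i j : Fin 2) (k : ℕ) : ∃ n, n / 4 = k ∧ rc n = (i, j) := by
  fin_cases i <;> fin_cases j
  · exact ⟨4 * k, by omega, by unfold rc; rw [if_pos (by omega), if_pos (by omega)]; rfl⟩
  · exact ⟨4 * k + 1, by omega, by unfold rc; rw [if_pos (by omega), if_neg (by omega)]; rfl⟩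
  · exact ⟨4 * k + 2, by omega, by unfold rc; rw [if_neg (by omega), if_pos (by omega)]; rfl⟩
  · exact ⟨4 * k + 3, by omega, by unfold rc; rw [if_neg (by omega), if_neg (by omega)]; rfl⟩

/-- the coefficient sequence of a matrix -/
def cs (M : MM) (n : ℕ) : ℤ := (M (rc n).1 (rc n).2).coeff (n / 4)

theorem cs_inj {M N : MM} (h : cs M = cs N) : M = N := by
  ext i j k
  obtain ⟨n, h1, h2⟩ := exists_rc i j k
  have := congrFun h n
  unfold cs at this
  rw [h1, h2] at this
  exact this

theorem cs_lt_left {M N C : MM} (hC : Cong C) (h : toLex (cs M) < toLex (cs N)) :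
    toLex (cs (C * M)) < toLex (cs (C * N)) := by
  obtain ⟨n, h1, h2⟩ := h
  have hv : Van (n / 4) (M - N) := by
    intro i j l hl
    obtain ⟨m, hm1, hm2⟩ := exists_rc i j l
    have h3 : cs M m = cs N m := h1 m (by omega)
    unfold cs at h3
    rw [hm1, hm2] at h3
    rw [Matrix.sub_apply, Polynomial.coeff_sub, h3, sub_self]
  have key : ∀ m, m ≤ n → cs (C * M) m - cs (C * N) m = cs M m - cs N m := by
    intro m hm
    unfold cs
    rw [← Polynomial.coeff_sub, ← Polynomial.coeff_sub, ← Matrix.sub_apply, ← Matrix.sub_apply,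
      ← mul_sub]
    exact coeff_left hv hC _ _ _ (Nat.div_le_div_right hm)
  refine ⟨n, ?_, ?_⟩
  · intro m hm
    have h3 : cs M m = cs N m := h1 m hm
    have h4 := key m hm.le
    show cs (C * M) m = cs (C * N) m
    omega
  · have h3 : cs M n < cs N n := h2
    have h4 := key n le_rfl
    show cs (C * M) n < cs (C * N) n
    omega

theorem cs_lt_right {M N C : MM} (hC : Cong C) (h : toLex (cs M) < toLex (cs N)) :
    toLex (cs (M * C)) < toLex (cs (N * C)) := by
  obtain ⟨n, h1, h2⟩ := h
  have hv : Van (n / 4) (M - N) := by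
    intro i j l hl
    obtain ⟨m, hm1, hm2⟩ := exists_rc i j l
    have h3 : cs M m = cs N m := h1 m (by omega)
    unfold cs at h3
    rw [hm1, hm2] at h3
    rw [Matrix.sub_apply, Polynomial.coeff_sub, h3, sub_self]
  have key : ∀ m, m ≤ n → cs (M * C) m - cs (N * C) m = cs M m - cs N m := by
    intro m hm
    unfold cs
    rw [← Polynomial.coeff_sub, ← Polynomial.coeff_sub, ← Matrix.sub_apply, ← Matrix.sub_apply,
      ← sub_mul]
    exact coeff_right hv hC _ _ _ (Nat.div_le_div_right hm)
  refine ⟨n, ?_, ?_⟩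
  · intro m hm
    have h3 : cs M m = cs N m := h1 m hm
    have h4 := key m hm.le
    show cs (M * C) m = cs (N * C) m
    omega
  · have h3 : cs M n < cs N n := h2
    have h4 := key n le_rfl
    show cs (M * C) n < cs (N * C) n
    omega

end

end Pool.Agent.H139R3.BO
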