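import Mathlib
import Pool.Agent.H139R3.BO.FreeOrd

set_option autoImplicit false

/-!
# Faithfulness of the representation, and the bi-invariant order on the free group of rank two
-/

namespace Pool.Agent.H139R3.BO

open Polynomial Matrix Monoid
open scoped Pointwise

noncomputable section

abbrev VV := Fin 2 → ℤ[X]

/-- units act on vectors -/
def actV : MMˣ →* Equiv.Perm VV where
  toFun U :=
    { toFun := fun v => (U : MM) *ᵥ v
      invFun := fun v => ((U⁻¹ : MMˣ) : MM) *ᵥ v
      left_inv := fun v => by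
        beta_reduce
        rw [Matrix.mulVec_mulVec, Units.inv_mul, Matrix.one_mulVec]
      right_inv := fun v => by
        beta_reduce
        rw [Matrix.mulVec_mulVec, Units.mul_inv, Matrix.one_mulVec] }
  map_one' := by
    ext v
    simp
  map_mul' U V := by
    ext v : 1
    show ((U * V : MMˣ) : MM) *ᵥ v = (U : MM) *ᵥ ((V : MM) *ᵥ v)
    rw [Matrix.mulVec_mulVec, Units.val_mul]

theorem actV_apply (U : MMˣ) (v : VV) : actV U v = (U : MM) *ᵥ v := rfl

/-- The ping-pong sets. -/
def PPX (i : Fin 2) : Set VV := {v | (v (1 - i)).degree < (v i).degree}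

theorem unip_pow {R : Type} [Ring R] (N : R) (hN : N * N = 0) (n : ℤ) :
    (unip N hN (Multiplicative.ofAdd 1)) ^ n = unip N hN (Multiplicative.ofAdd n) := by
  rw [← map_zpow, ← ofAdd_zsmul]
  simp

theorem deg_aux (n : ℤ) (hn : n ≠ 0) (p q : ℤ[X]) (h : p.degree < q.degree) :
    q.degree < (p + n • (X * q)).degree := by
  have hq : q ≠ 0 := by
    rintro rfl
    rw [degree_zero] at h
    exact not_lt_bot h
  have h1 : (n • (X * q)).degree = q.degree + 1 := by
    have hC : (n : ℤ[X]) = C n := by simp
    rw [zsmul_eq_mul, hC, Polynomial.degree_C_mul_of_mul_ne_zero, mul_comm,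
      Polynomial.degree_mul_X]
    rw [Polynomial.leadingCoeff_mul, Polynomial.leadingCoeff_X, one_mul]
    exact mul_ne_zero hn (Polynomial.leadingCoeff_ne_zero.2 hq)
  have h2 : q.degree < q.degree + 1 := by
    rw [Polynomial.degree_eq_natDegree hq]
    exact_mod_cast Nat.lt_succ_self _
  have h3 : p.degree < (n • (X * q)).degree := by
    rw [h1]; exact h.trans h2
  rw [Polynomial.degree_add_eq_right_of_degree_lt h3, h1]
  exact h2

theorem unip0_apply (n : ℤ) (v : VV) :
    actV (unip N0 N0_sq (Multiplicative.ofAdd n)) v = ![v 0 + n • (X * v 1), v 1] := by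
  rw [actV_apply]
  show (1 + n • N0) *ᵥ v = _
  rw [Matrix.add_mulVec, Matrix.one_mulVec, Matrix.smul_mulVec]
  ext i : 1
  fin_cases i
  · show v 0 + n • (∑ j, N0 0 j * v j) = v 0 + n • (X * v 1)
    rw [Fin.sum_univ_two]
    simp [N0]
  · show v 1 + n • (∑ j, N0 1 j * v j) = v 1
    rw [Fin.sum_univ_two]
    simp [N0]

theorem unip1_apply (n : ℤ) (v : VV) :
    actV (unip N1 N1_sq (Multiplicative.ofAdd n)) v = ![v 0, v 1 + n • (X * v 0)] := by
  rw [actV_apply]
  show (1 + n • N1) *ᵥ v = _
  rw [Matrix.add_mulVec, Matrix.one_mulVec, Matrix.smul_mulVec]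
  ext i : 1
  fin_cases i
  · show v 0 + n • (∑ j, N1 0 j * v j) = v 0
    rw [Fin.sum_univ_two]
    simp [N1]
  · show v 1 + n • (∑ j, N1 1 j * v j) = v 1 + n • (X * v 0)
    rw [Fin.sum_univ_two]
    simp [N1]

theorem pp (i j : Fin 2) (hij : i ≠ j) (n : ℤ) (hn : n ≠ 0) (v : VV) (hv : v ∈ PPX j) :
    actV (gm i ^ n) v ∈ PPX i := by
  fin_cases i <;> fin_cases j
  · exact absurd rfl hij
  · show actV ((unip N0 N0_sq (Multiplicative.ofAdd 1)) ^ n) v ∈ PPX 0
    rw [unip_pow, unip0_apply]
    show (v 1).degree < (v 0 + n • (X * v 1)).degree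
    exact deg_aux n hn _ _ hv
  · show actV ((unip N1 N1_sq (Multiplicative.ofAdd 1)) ^ n) v ∈ PPX 1
    rw [unip_pow, unip1_apply]
    show (v 0).degree < (v 1 + n • (X * v 0)).degree
    exact deg_aux n hn _ _ hv
  · exact absurd rfl hij

theorem pp_inj : Function.Injective (FreeGroup.lift (fun i => actV (gm i))) := by
  have this : FreeGroup.lift (fun i => actV (gm i)) =
      (CoprodI.lift fun i => FreeGroup.lift fun _ : Unit => actV (gm i)).comp
        (@freeGroupEquivCoprodI (Fin 2)).toMonoidHom := by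
    ext i
    simp
  rw [this, MonoidHom.coe_comp]
  clear this
  refine Function.Injective.comp ?_ (MulEquiv.injective freeGroupEquivCoprodI)
  let H : Fin 2 → Type _ := fun _i => FreeGroup Unit
  let f : ∀ i, H i →* Equiv.Perm VV := fun i => FreeGroup.lift fun _ => actV (gm i)
  refine CoprodI.lift_injective_of_ping_pong (H := H) f ?_ PPX ?_ ?_ ?_
  · right
    refine ⟨0, ?_⟩
    show 3 ≤ Cardinal.mk (FreeGroup Unit)
    rw [FreeGroup.freeGroupUnitEquivInt.cardinal_eq, Cardinal.mk_denumerable]
    exact Cardinal.natCast_le_aleph0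
  · intro i
    refine ⟨fun j => if j = i then 1 else 0, ?_⟩
    show ((if (1 - i) = i then (1 : ℤ[X]) else 0)).degree < ((if i = i then (1 : ℤ[X]) else 0)).degree
    rw [if_pos rfl, if_neg (by fin_cases i <;> decide), degree_zero, degree_one]
    exact WithBot.bot_lt_coe 0
  · intro i j hij
    rw [Function.onFun, Set.disjoint_left]
    intro v h1 h2
    have e : ∀ i j : Fin 2, i ≠ j → 1 - i = j := by decide
    have e1 : 1 - i = j := e i j hij
    have e2 : 1 - j = i := e j i hij.symm
    unfold PPX at h1 h2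
    simp only [Set.mem_setOf_eq] at h1 h2
    rw [e1] at h1
    rw [e2] at h2
    exact lt_asymm h1 h2
  · intro i j hij
    refine FreeGroup.freeGroupUnitEquivInt.forall_congr_left.mpr ?_
    intro n hne1
    have hnne0 : n ≠ 0 := by
      rintro rfl
      apply hne1
      simp [H, FreeGroup.freeGroupUnitEquivInt]
    change FreeGroup.lift (fun _ => actV (gm i)) (FreeGroup.of () ^ n) • PPX j ⊆ PPX i
    simp only [map_zpow, FreeGroup.lift_apply_of]
    rintro _ ⟨v, hv, rfl⟩
    show (actV (gm i) ^ n) v ∈ PPX i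
    rw [← map_zpow]
    exact pp i j hij n hnne0 v hv

theorem rho_injective : Function.Injective rho := by
  have h : actV.comp rho = FreeGroup.lift (fun i => actV (gm i)) := by
    ext i : 1
    simp [rho]
  have h2 := pp_inj
  rw [← h] at h2
  exact Function.Injective.of_comp (f := actV) h2

/-- The Magnus-type linear order on the free group of rank two. -/
instance freeOrd : LinearOrder (FreeGroup (Fin 2)) :=
  LinearOrder.lift' (fun g => toLex (cs (rho g : MM))) (by
    intro g h hgh
    have h1 : cs (rho g : MM) = cs (rho h : MM) := hgh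
    exact rho_injective (Units.ext (cs_inj h1)))

theorem free_lt_iff (g h : FreeGroup (Fin 2)) :
    g < h ↔ toLex (cs (rho g : MM)) < toLex (cs (rho h : MM)) := Iff.rfl

theorem free_mul_lt_left (c g h : FreeGroup (Fin 2)) (hgh : g < h) : c * g < c * h := by
  rw [free_lt_iff] at *
  rw [map_mul, map_mul, Units.val_mul, Units.val_mul]
  exact cs_lt_left (cong_rho c) hgh

theorem free_mul_lt_right (c g h : FreeGroup (Fin 2)) (hgh : g < h) : g * c < h * c := by
  rw [free_lt_iff] at *
  rw [map_mul, map_mul, Units.val_mul, Units.val_mul]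
  exact cs_lt_right (cong_rho c) hgh

instance : MulLeftStrictMono (FreeGroup (Fin 2)) := ⟨fun c _ _ h => free_mul_lt_left c _ _ h⟩

instance : MulRightStrictMono (FreeGroup (Fin 2)) := ⟨fun c _ _ h => free_mul_lt_right c _ _ h⟩

end

end Pool.Agent.H139R3.BO
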