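import Mathlib
import Pool.Agent.H139R3.BO.Ext
import Pool.Agent.H139R3.BO.FreeInj

set_option autoImplicit false

/-!
# The wreath product of `ℤ` by `Q`, with its bi-invariant order
-/

namespace Pool.Agent.H139R3.BO

open Finsupp

noncomputable section

/-- the restricted wreath product of `ℤ` by `Q` -/
@[ext] structure Wr (Q : Type) where
  v : Q →₀ ℤ
  g : Q

namespace Wr

variable {Q : Type} [Group Q]

instance : Mul (Wr Q) := ⟨fun x y => ⟨x.v + tr x.g y.v, x.g * y.g⟩⟩
instance : One (Wr Q) := ⟨⟨0, 1⟩⟩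
instance : Inv (Wr Q) := ⟨fun x => ⟨- tr x.g⁻¹ x.v, x.g⁻¹⟩⟩

theorem mul_v (x y : Wr Q) : (x * y).v = x.v + tr x.g y.v := rfl
theorem mul_g (x y : Wr Q) : (x * y).g = x.g * y.g := rfl
theorem one_v : (1 : Wr Q).v = 0 := rfl
theorem one_g : (1 : Wr Q).g = 1 := rfl
theorem inv_v (x : Wr Q) : (x⁻¹).v = - tr x.g⁻¹ x.v := rfl
theorem inv_g (x : Wr Q) : (x⁻¹).g = x.g⁻¹ := rfl

instance : Group (Wr Q) := Group.ofLeftAxioms
  (by
    intro x y z
    ext1
    · rw [mul_v, mul_v, mul_v, mul_v, mul_g, tr_mul, map_add, add_assoc]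
    · rw [mul_g, mul_g, mul_g, mul_g, mul_assoc])
  (by
    intro x
    ext1
    · rw [mul_v, one_v, one_g, tr_one, zero_add]
    · rw [mul_g, one_g, one_mul])
  (by
    intro x
    ext1
    · rw [mul_v, inv_v, inv_g, one_v, neg_add_cancel]
    · rw [mul_g, inv_g, one_g, inv_mul_cancel])

/-- the projection -/
def pr : Wr Q →* Q where
  toFun := Wr.g
  map_one' := rfl
  map_mul' _ _ := rfl

/-- the extension structure -/
def exE : Ext Q (Wr Q) where
  π := pr
  v := Wr.v
  v_mul _ _ := rfl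
  ι q := ⟨0, q⟩
  π_ι _ := rfl
  e := ⟨single 1 1, 1⟩
  π_e := rfl
  v_e := rfl
  cen := by
    intro x hx hv y
    have : x = 1 := by
      ext1
      · exact hv
      · exact hx
    rw [this, one_mul, mul_one]

instance [Infinite Q] : Infinite (Wr Q) := Infinite.of_surjective (Wr.g) (fun q => ⟨⟨0, q⟩, rfl⟩)

section order

variable [LinearOrder Q]

/-- the order key -/
def key (x : Wr Q) : Q ×ₗ Lex (Q →₀ ℤ) := toLex (x.g, toLex x.v)

theorem key_inj : Function.Injective (key : Wr Q → _) := by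
  intro x y h
  have h1 := congrArg ofLex h
  ext1
  · exact toLex_inj.1 (congrArg Prod.snd h1)
  · exact congrArg Prod.fst h1

instance : LinearOrder (Wr Q) := LinearOrder.lift' key key_inj

theorem lt_iff (x y : Wr Q) : x < y ↔ x.g < y.g ∨ (x.g = y.g ∧ toLex x.v < toLex y.v) := by
  show key x < key y ↔ _
  unfold key
  rw [Prod.Lex.toLex_lt_toLex]

theorem tr_lt [MulLeftStrictMono Q] (q : Q) (v w : Q →₀ ℤ) (h : toLex v < toLex w) :
    toLex (tr q v) < toLex (tr q w) := by
  obtain ⟨r, h1, h2⟩ := h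
  refine ⟨q * r, ?_, ?_⟩
  · intro s hs
    have h3 : q⁻¹ * s < r := by
      have := mul_lt_mul_right hs q⁻¹
      rwa [inv_mul_cancel_left] at this
    exact h1 _ h3
  · show v (q⁻¹ * (q * r)) < w (q⁻¹ * (q * r))
    rw [inv_mul_cancel_left]
    exact h2

theorem add_lt (u v w : Q →₀ ℤ) (h : toLex v < toLex w) : toLex (u + v) < toLex (u + w) := by
  obtain ⟨r, h1, h2⟩ := h
  refine ⟨r, ?_, ?_⟩
  · intro s hs
    have : v s = w s := h1 s hs
    show (u + v) s = (u + w) s
    rw [Finsupp.add_apply, Finsupp.add_apply, this]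
  · have : v r < w r := h2
    show (u + v) r < (u + w) r
    rw [Finsupp.add_apply, Finsupp.add_apply]
    omega

instance [MulLeftStrictMono Q] : MulLeftStrictMono (Wr Q) := by
  refine ⟨fun c x y h => ?_⟩
  show c * x < c * y
  rw [lt_iff] at h ⊢
  rcases h with h | ⟨h1, h2⟩
  · left
    rw [mul_g, mul_g]
    exact mul_lt_mul_right h _
  · right
    refine ⟨by rw [mul_g, mul_g, h1], ?_⟩
    rw [mul_v, mul_v]
    exact add_lt _ _ _ (tr_lt _ _ _ h2)

instance [MulRightStrictMono Q] : MulRightStrictMono (Wr Q) := by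
  refine ⟨fun c x y h => ?_⟩
  show x * c < y * c
  rw [lt_iff] at h ⊢
  rcases h with h | ⟨h1, h2⟩
  · left
    rw [mul_g, mul_g]
    exact mul_lt_mul_left h _
  · right
    refine ⟨by rw [mul_g, mul_g, h1], ?_⟩
    rw [mul_v, mul_v, h1, add_comm, add_comm y.v]
    exact add_lt _ _ _ h2

end order

/-- generation of the wreath product -/
theorem mem_of_gens (P : Subgroup (Wr Q)) (h1 : ∀ q, (⟨0, q⟩ : Wr Q) ∈ P)
    (h2 : (⟨single 1 1, 1⟩ : Wr Q) ∈ P) (x : Wr Q) : x ∈ P := by
  have h3 : ∀ q : Q, (⟨single q 1, 1⟩ : Wr Q) ∈ P := by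
    intro q
    have : (⟨single q 1, 1⟩ : Wr Q) = ⟨0, q⟩ * ⟨single 1 1, 1⟩ * (⟨0, q⟩ : Wr Q)⁻¹ := by
      ext1
      · rw [mul_v, mul_v, inv_v, mul_g]
        simp [tr_single]
      · rw [mul_g, mul_g, inv_g]
        simp
    rw [this]
    exact P.mul_mem (P.mul_mem (h1 q) h2) (P.inv_mem (h1 q))
  let V : AddSubgroup (Q →₀ ℤ) :=
    { carrier := {w | (⟨w, 1⟩ : Wr Q) ∈ P}
      add_mem' := by
        intro w w' hw hw'
        have : (⟨w + w', 1⟩ : Wr Q) = ⟨w, 1⟩ * ⟨w', 1⟩ := by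
          ext1
          · rw [mul_v, tr_one]
          · rw [mul_g, mul_one]
        show (⟨w + w', 1⟩ : Wr Q) ∈ P
        rw [this]
        exact P.mul_mem hw hw'
      zero_mem' := P.one_mem
      neg_mem' := by
        intro w hw
        have : (⟨-w, 1⟩ : Wr Q) = (⟨w, 1⟩ : Wr Q)⁻¹ := by
          ext1
          · rw [inv_v]
            simp [tr_one]
          · rw [inv_g]
            simp
        show (⟨-w, 1⟩ : Wr Q) ∈ P
        rw [this]
        exact P.inv_mem hw }
  have h4 : ∀ w : Q →₀ ℤ, w ∈ V := by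
    intro w
    induction w using Finsupp.induction_linear with
    | zero => exact V.zero_mem
    | add f g hf hg => exact V.add_mem hf hg
    | single q n =>
      have : single q n = n • (single q (1 : ℤ)) := by
        rw [Finsupp.smul_single, smul_eq_mul, mul_one]
      rw [this]
      exact V.zsmul_mem (h3 q) n
  have h5 : x = ⟨x.v, 1⟩ * ⟨0, x.g⟩ := by
    ext1
    · rw [mul_v, map_zero, add_zero]
    · rw [mul_g, one_mul]
  rw [h5]
  exact P.mul_mem (h4 _) (h1 _)

end Wr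

end

end Pool.Agent.H139R3.BO
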