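import Mathlib
import Pool.Agent.H139R3.BO.Wr

set_option autoImplicit false

/-!
# Hall-type central extensions of the wreath product of `ℤ` by `Q`
-/

namespace Pool.Agent.H139R3.BO

open Finsupp

noncomputable section

section beta

variable {Q : Type} [Group Q] (P : Set Q)

open Classical in
/-- the generator attached to `g` (trivial when `g ∉ P`) -/
def kap (g : Q) : Q →₀ ℤ := if g ∈ P then single g 1 else 0

/-- the bilinear cocycle -/
def bet : (Q →₀ ℤ) →ₗ[ℤ] (Q →₀ ℤ) →ₗ[ℤ] (Q →₀ ℤ) :=
  Finsupp.linearCombination ℤ (fun p => Finsupp.linearCombination ℤ (fun q => kap P (p⁻¹ * q)))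

theorem bet_single (p q : Q) (m n : ℤ) :
    bet P (single p m) (single q n) = (m * n) • kap P (p⁻¹ * q) := by
  unfold bet
  rw [Finsupp.linearCombination_single, LinearMap.smul_apply, Finsupp.linearCombination_single,
    smul_smul]

theorem bet_tr (r : Q) (v w : Q →₀ ℤ) : bet P (tr r v) (tr r w) = bet P v w := by
  induction v using Finsupp.induction_linear with
  | zero => simp
  | add f g hf hg => rw [map_add, map_add, map_add, LinearMap.add_apply, LinearMap.add_apply, hf, hg]
  | single p m =>
    induction w using Finsupp.induction_linear with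
    | zero => simp
    | add f g hf hg => rw [map_add, map_add, map_add, hf, hg]
    | single q n =>
      rw [tr_single, tr_single, bet_single, bet_single]
      congr 2
      group

theorem bet_tr' (r : Q) (v w : Q →₀ ℤ) : bet P (tr r v) w = bet P v (tr r⁻¹ w) := by
  rw [← bet_tr P r v (tr r⁻¹ w), tr_tr_inv]

end beta

/-- the extension group -/
@[ext] structure GG (Q : Type) (P : Set Q) where
  z : Q →₀ ℤ
  v : Q →₀ ℤ
  q : Q

namespace GG

variable {Q : Type} [Group Q] {P : Set Q}

instance : Mul (GG Q P) := ⟨fun x y => ⟨x.z + y.z + bet P x.v (tr x.q y.v), x.v + tr x.q y.v,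
  x.q * y.q⟩⟩
instance : One (GG Q P) := ⟨⟨0, 0, 1⟩⟩
instance : Inv (GG Q P) := ⟨fun x => ⟨- x.z + bet P x.v x.v, - tr x.q⁻¹ x.v, x.q⁻¹⟩⟩

theorem mul_z (x y : GG Q P) : (x * y).z = x.z + y.z + bet P x.v (tr x.q y.v) := rfl
theorem mul_v (x y : GG Q P) : (x * y).v = x.v + tr x.q y.v := rfl
theorem mul_q (x y : GG Q P) : (x * y).q = x.q * y.q := rfl
theorem one_z : (1 : GG Q P).z = 0 := rfl
theorem one_v : (1 : GG Q P).v = 0 := rfl
theorem one_q : (1 : GG Q P).q = 1 := rfl
theorem inv_z (x : GG Q P) : (x⁻¹).z = - x.z + bet P x.v x.v := rfl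
theorem inv_v (x : GG Q P) : (x⁻¹).v = - tr x.q⁻¹ x.v := rfl
theorem inv_q (x : GG Q P) : (x⁻¹).q = x.q⁻¹ := rfl

instance : Group (GG Q P) := Group.ofLeftAxioms
  (by
    intro x y z
    ext1
    · rw [mul_z, mul_z, mul_z, mul_z, mul_v, mul_v, mul_q, tr_mul, map_add, map_add, map_add,
        LinearMap.add_apply, bet_tr]
      abel
    · rw [mul_v, mul_v, mul_v, mul_v, mul_q, tr_mul, map_add, add_assoc]
    · rw [mul_q, mul_q, mul_q, mul_q, mul_assoc])
  (by
    intro x
    ext1
    · rw [mul_z, one_z, one_v, one_q, tr_one, map_zero, LinearMap.zero_apply, zero_add, add_zero]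
    · rw [mul_v, one_v, one_q, tr_one, zero_add]
    · rw [mul_q, one_q, one_mul])
  (by
    intro x
    ext1
    · rw [mul_z, inv_z, inv_v, inv_q, one_z, map_neg, LinearMap.neg_apply, bet_tr]
      abel
    · rw [mul_v, inv_v, inv_q, one_v, neg_add_cancel]
    · rw [mul_q, inv_q, one_q, inv_mul_cancel])

/-- the projection -/
def pr : GG Q P →* Q where
  toFun := GG.q
  map_one' := rfl
  map_mul' _ _ := rfl

/-- the section -/
def io : Q →* GG Q P where
  toFun q := ⟨0, 0, q⟩
  map_one' := rfl
  map_mul' q r := by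
    ext1
    · rw [mul_z]; simp
    · rw [mul_v]; simp
    · rw [mul_q]

/-- the distinguished element -/
def el : GG Q P := ⟨0, single 1 1, 1⟩

theorem cen (x : GG Q P) (hx : x.q = 1) (hv : x.v = 0) (y : GG Q P) : x * y = y * x := by
  ext1
  · rw [mul_z, mul_z, hx, hv, map_zero, map_zero, map_zero, LinearMap.zero_apply,
      add_comm x.z]
  · rw [mul_v, mul_v, hx, hv, map_zero, tr_one, zero_add, add_zero]
  · rw [mul_q, mul_q, hx, one_mul, mul_one]

/-- commutation in the kernel -/
theorem comm_iff (x y : GG Q P) (hx : x.q = 1) (hy : y.q = 1) :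
    x * y = y * x ↔ bet P x.v y.v = bet P y.v x.v := by
  constructor
  · intro h
    have h1 := congrArg GG.z h
    rw [mul_z, mul_z, hx, hy, tr_one, tr_one, add_comm x.z] at h1
    exact add_left_cancel h1
  · intro h
    ext1
    · rw [mul_z, mul_z, hx, hy, tr_one, tr_one, h, add_comm x.z]
    · rw [mul_v, mul_v, hx, hy, tr_one, tr_one, add_comm]
    · rw [mul_q, mul_q, hx, hy]

/-- conjugates of the distinguished element -/
theorem conj_el (q : Q) : (io q * el * (io q)⁻¹ : GG Q P) = ⟨0, single q 1, 1⟩ := by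
  ext1
  · rw [mul_z, mul_z, inv_z, mul_v, inv_v]
    simp [io, el]
  · rw [mul_v, mul_v, inv_v, mul_q]
    simp [io, el, tr_single]
  · rw [mul_q, mul_q, inv_q]
    simp [io, el]

/-- the extension structure on a subgroup containing the section and the distinguished element -/
def exE (H : Subgroup (GG Q P)) (h1 : ∀ q, io q ∈ H) (h2 : el ∈ H) : Ext Q H where
  π := pr.comp H.subtype
  v x := x.1.v
  v_mul _ _ := rfl
  ι q := ⟨io q, h1 q⟩
  π_ι _ := rfl
  e := ⟨el, h2⟩
  π_e := rfl
  v_e := rfl
  cen x hx hv y := Subtype.ext (cen x.1 hx hv y.1)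

section order

variable [LinearOrder Q]

/-- the order key -/
def key (x : GG Q P) : Q ×ₗ (Lex (Q →₀ ℤ) ×ₗ Lex (Q →₀ ℤ)) :=
  toLex (x.q, toLex (toLex x.v, toLex x.z))

theorem key_inj : Function.Injective (key : GG Q P → _) := by
  intro x y h
  have h1 := congrArg ofLex h
  have h2 := congrArg ofLex (congrArg Prod.snd h1)
  ext1
  · exact toLex_inj.1 (congrArg Prod.snd h2)
  · exact toLex_inj.1 (congrArg Prod.fst h2)
  · exact congrArg Prod.fst h1

instance : LinearOrder (GG Q P) := LinearOrder.lift' key key_inj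

theorem lt_iff (x y : GG Q P) : x < y ↔ x.q < y.q ∨ (x.q = y.q ∧ (toLex x.v < toLex y.v ∨
    (x.v = y.v ∧ toLex x.z < toLex y.z))) := by
  show key x < key y ↔ _
  unfold key
  rw [Prod.Lex.toLex_lt_toLex]
  simp only
  rw [Prod.Lex.toLex_lt_toLex]
  simp

instance [MulLeftStrictMono Q] : MulLeftStrictMono (GG Q P) := by
  refine ⟨fun c x y h => ?_⟩
  show c * x < c * y
  rw [lt_iff] at h ⊢
  rcases h with h | ⟨h1, h2 | ⟨h2, h3⟩⟩
  · left
    rw [mul_q, mul_q]
    exact mul_lt_mul_right h _
  · right
    refine ⟨by rw [mul_q, mul_q, h1], Or.inl ?_⟩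
    rw [mul_v, mul_v]
    exact Wr.add_lt _ _ _ (Wr.tr_lt _ _ _ h2)
  · right
    refine ⟨by rw [mul_q, mul_q, h1], Or.inr ⟨by rw [mul_v, mul_v, h2], ?_⟩⟩
    rw [mul_z, mul_z, h2]
    have e : ∀ a b c : Q →₀ ℤ, a + b + c = (a + c) + b := fun a b c => by abel
    rw [e, e c.z y.z]
    exact Wr.add_lt _ _ _ h3

instance [MulRightStrictMono Q] : MulRightStrictMono (GG Q P) := by
  refine ⟨fun c x y h => ?_⟩
  show x * c < y * c
  rw [lt_iff] at h ⊢
  rcases h with h | ⟨h1, h2 | ⟨h2, h3⟩⟩
  · left
    rw [mul_q, mul_q]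
    exact mul_lt_mul_left h _
  · right
    refine ⟨by rw [mul_q, mul_q, h1], Or.inl ?_⟩
    rw [mul_v, mul_v, h1, add_comm, add_comm y.v]
    exact Wr.add_lt _ _ _ h2
  · right
    refine ⟨by rw [mul_q, mul_q, h1], Or.inr ⟨by rw [mul_v, mul_v, h2, h1], ?_⟩⟩
    rw [mul_z, mul_z, h2, h1]
    have e : ∀ a b c : Q →₀ ℤ, a + b + c = (b + c) + a := fun a b c => by abel
    rw [e, e y.z]
    exact Wr.add_lt _ _ _ h3

end order

/-- transport along an automorphism of `Q` -/
def mapH {P' : Set Q} (α : Q ≃* Q) (hα : ∀ g, g ∈ P ↔ α g ∈ P') : GG Q P ≃* GG Q P' where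
  toFun x := ⟨x.z.equivMapDomain α.toEquiv, x.v.equivMapDomain α.toEquiv, α x.q⟩
  invFun x := ⟨x.z.equivMapDomain α.symm.toEquiv, x.v.equivMapDomain α.symm.toEquiv, α.symm x.q⟩
  left_inv x := by
    ext <;> simp
  right_inv x := by
    ext <;> simp
  map_mul' x y := by
    have htr : ∀ (q : Q) (v : Q →₀ ℤ), (tr q v).equivMapDomain α.toEquiv =
        tr (α q) (v.equivMapDomain α.toEquiv) := by
      intro q v
      ext r
      simp [tr_apply]
    have hadd : ∀ v w : Q →₀ ℤ, (v + w).equivMapDomain α.toEquiv =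
        v.equivMapDomain α.toEquiv + w.equivMapDomain α.toEquiv := by
      intro v w
      ext r
      simp
    have hkap : ∀ g : Q, (kap P g).equivMapDomain α.toEquiv = kap P' (α g) := by
      intro g
      unfold kap
      by_cases h : g ∈ P
      · rw [if_pos h, if_pos ((hα g).1 h), Finsupp.equivMapDomain_single]
        rfl
      · rw [if_neg h, if_neg (fun h' => h ((hα g).2 h'))]
        exact Finsupp.equivMapDomain_zero
    have hbet : ∀ v w : Q →₀ ℤ, (bet P v w).equivMapDomain α.toEquiv =
        bet P' (v.equivMapDomain α.toEquiv) (w.equivMapDomain α.toEquiv) := by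
      intro v w
      induction v using Finsupp.induction_linear with
      | zero => simp [Finsupp.equivMapDomain_zero]
      | add f g hf hg => rw [map_add, LinearMap.add_apply, hadd, hadd, hf, hg, map_add,
          LinearMap.add_apply]
      | single p m =>
        induction w using Finsupp.induction_linear with
        | zero => simp [Finsupp.equivMapDomain_zero]
        | add f g hf hg => rw [map_add, hadd, hadd, hf, hg, map_add]
        | single q n =>
          rw [bet_single, Finsupp.equivMapDomain_single, Finsupp.equivMapDomain_single, bet_single]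
          have : ((m * n) • kap P (p⁻¹ * q)).equivMapDomain α.toEquiv =
              (m * n) • (kap P (p⁻¹ * q)).equivMapDomain α.toEquiv := by
            ext r
            simp
          rw [this, hkap, map_mul, map_inv]
          rfl
    ext1
    · show (x * y).z.equivMapDomain α.toEquiv = _
      rw [mul_z, mul_z, hadd, hadd, hbet, htr]
    · show (x * y).v.equivMapDomain α.toEquiv = _
      rw [mul_v, mul_v, hadd, htr]
    · show α (x * y).q = _
      rw [mul_q, mul_q, map_mul]

theorem mapH_io {P' : Set Q} (α : Q ≃* Q) (hα : ∀ g, g ∈ P ↔ α g ∈ P') (q : Q) :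
    mapH α hα (io q) = io (α q) := by
  ext <;> simp [mapH, io]

theorem mapH_el {P' : Set Q} (α : Q ≃* Q) (hα : ∀ g, g ∈ P ↔ α g ∈ P') :
    mapH α hα (el : GG Q P) = el := by
  ext1
  · simp [mapH, el]
  · show (single (1 : Q) (1 : ℤ)).equivMapDomain α.toEquiv = single 1 1
    rw [Finsupp.equivMapDomain_single]
    simp
  · simp [mapH, el]

open Classical in
/-- restriction of the central part -/
def res {P' : Set Q} (h : P' ⊆ P) : GG Q P →* GG Q P' where
  toFun x := ⟨x.z.filter (· ∈ P'), x.v, x.q⟩
  map_one' := by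
    ext1
    · show (0 : Q →₀ ℤ).filter (· ∈ P') = 0
      exact Finsupp.filter_zero _
    · rfl
    · rfl
  map_mul' x y := by
    have hkap : ∀ g : Q, (kap P g).filter (· ∈ P') = kap P' g := by
      intro g
      unfold kap
      by_cases h1 : g ∈ P'
      · rw [if_pos h1, if_pos (h h1), Finsupp.filter_single_of_pos _ h1]
      · rw [if_neg h1]
        by_cases h2 : g ∈ P
        · rw [if_pos h2, Finsupp.filter_single_of_neg _ h1]
        · rw [if_neg h2, Finsupp.filter_zero]
    have hbet : ∀ v w : Q →₀ ℤ, (bet P v w).filter (· ∈ P') = bet P' v w := by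
      intro v w
      induction v using Finsupp.induction_linear with
      | zero =>
        rw [map_zero, map_zero, LinearMap.zero_apply]
        exact Finsupp.filter_zero _
      | add f g hf hg => rw [map_add, LinearMap.add_apply, Finsupp.filter_add, hf, hg, map_add,
          LinearMap.add_apply]
      | single p m =>
        induction w using Finsupp.induction_linear with
        | zero =>
          rw [map_zero, map_zero]
          exact Finsupp.filter_zero _
        | add f g hf hg => rw [map_add, Finsupp.filter_add, hf, hg, map_add]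
        | single q n =>
          rw [bet_single, bet_single, ← hkap, Finsupp.filter_smul]
    ext1
    · show (x * y).z.filter (· ∈ P') = _
      rw [mul_z, mul_z, Finsupp.filter_add, Finsupp.filter_add, hbet]
    · rfl
    · rfl

open Classical in
theorem res_io {P' : Set Q} (h : P' ⊆ P) (q : Q) : res h (io q) = io q := by
  ext1
  · show (0 : Q →₀ ℤ).filter (· ∈ P') = 0
    exact Finsupp.filter_zero _
  · rfl
  · rfl

open Classical in
theorem res_el {P' : Set Q} (h : P' ⊆ P) : res h (el : GG Q P) = el := by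
  ext1
  · show (0 : Q →₀ ℤ).filter (· ∈ P') = 0
    exact Finsupp.filter_zero _
  · rfl
  · rfl

end GG

end

end Pool.Agent.H139R3.BO
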