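import Mathlib
import Pool.Agent.H139R3.BO.GGr

set_option autoImplicit false

/-!
# Coding a function on the free group by a set of relators
-/

namespace Pool.Agent.H139R3.BO

open Finsupp

noncomputable section

abbrev F := FreeGroup (Fin 2)
abbrev W := Wr F

def ga : F := FreeGroup.of 0
def gb : F := FreeGroup.of 1

theorem ga_ne : ga ≠ 1 := by unfold ga; decide
theorem gb_ne : gb ≠ 1 := by unfold gb; decide
theorem gab_ne : ga * gb ≠ 1 := by unfold ga gb; decide

/-- the marker -/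
def t0 : F →₀ ℤ := single 1 1 + single ga 2 + single (ga * gb) 3

theorem tr_t0 (c : F) : tr c t0 = single c 1 + single (c * ga) 2 + single (c * (ga * gb)) 3 := by
  unfold t0
  rw [map_add, map_add, tr_single, tr_single, tr_single, mul_one]

/-- the coding set -/
def SX (X : F → ℕ → Bool) : Set W :=
  {x | x.g = 1 ∧ ((∃ c, x.v = tr c t0 ∨ x.v = -(tr c t0)) ∨
    ∃ c n, X c n = true ∧ (x.v = single c ((n : ℤ) + 1) ∨ x.v = - single c ((n : ℤ) + 1)))}

/-- the set of central generators -/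
def PX (X : F → ℕ → Bool) : Set W := {x | 1 < x ∧ x ∉ SX X}

theorem SX_inv (X : F → ℕ → Bool) (x : W) (hx : x ∈ SX X) : x⁻¹ ∈ SX X := by
  obtain ⟨h1, h2⟩ := hx
  have hv : (x⁻¹).v = - x.v := by
    rw [Wr.inv_v, h1, inv_one, tr_one]
  refine ⟨by rw [Wr.inv_g, h1, inv_one], ?_⟩
  rcases h2 with ⟨c, h | h⟩ | ⟨c, n, hX, h | h⟩
  · exact Or.inl ⟨c, Or.inr (by rw [hv, h])⟩
  · exact Or.inl ⟨c, Or.inl (by rw [hv, h, neg_neg])⟩
  · exact Or.inr ⟨c, n, hX, Or.inr (by rw [hv, h])⟩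
  · exact Or.inr ⟨c, n, hX, Or.inl (by rw [hv, h, neg_neg])⟩

theorem SX_inv_iff (X : F → ℕ → Bool) (x : W) : x⁻¹ ∈ SX X ↔ x ∈ SX X :=
  ⟨fun h => by simpa using SX_inv X _ h, SX_inv X x⟩

theorem kap_iff (X : F → ℕ → Bool) (g : W) (hg : g ≠ 1) :
    kap (PX X) g = kap (PX X) g⁻¹ ↔ g ∈ SX X := by
  constructor
  · intro h
    by_contra hS
    have hS' : g⁻¹ ∉ SX X := fun h' => hS ((SX_inv_iff X g).1 h')
    rcases lt_or_gt_of_ne hg with h1 | h1
    · have h2 : g⁻¹ ∈ PX X := ⟨one_lt_inv'.2 h1, hS'⟩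
      have h3 : g ∉ PX X := fun h' => lt_asymm h1 h'.1
      unfold kap at h
      rw [if_pos h2, if_neg h3] at h
      exact one_ne_zero (Finsupp.single_eq_zero.1 h.symm)
    · have h2 : g ∈ PX X := ⟨h1, hS⟩
      have h3 : g⁻¹ ∉ PX X := fun h' => lt_asymm h1 (one_lt_inv'.1 h'.1)
      unfold kap at h
      rw [if_pos h2, if_neg h3] at h
      exact one_ne_zero (Finsupp.single_eq_zero.1 h)
  · intro hS
    have h1 : g ∉ PX X := fun h => h.2 hS
    have h2 : g⁻¹ ∉ PX X := fun h => h.2 (SX_inv X g hS)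
    unfold kap
    rw [if_neg h1, if_neg h2]

theorem triple_single {p1 p2 p3 : F} (h12 : p1 ≠ p2) (h13 : p1 ≠ p3) (h23 : p2 ≠ p3) (m : ℤ)
    (hm : m = 1 ∨ m = -1) (r : F) (n : ℤ) :
    single p1 m + single p2 (2 * m) + single p3 (3 * m) ≠ single r n := by
  intro h
  have e1 := DFunLike.congr_fun h p1
  have e2 := DFunLike.congr_fun h p2
  simp only [Finsupp.add_apply, single_eq_same, single_eq_of_ne h12, single_eq_of_ne h13,
    single_eq_of_ne h12.symm, single_eq_of_ne h23] at e1 e2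
  by_cases h1 : p1 = r
  · subst h1
    rw [single_eq_of_ne h12.symm] at e2
    omega
  · rw [single_eq_of_ne h1] at e1
    omega

theorem triple_triple {p1 p2 p3 r1 r2 r3 : F} (h12 : p1 ≠ p2) (h13 : p1 ≠ p3) (h23 : p2 ≠ p3)
    (k12 : r1 ≠ r2) (k13 : r1 ≠ r3) (k23 : r2 ≠ r3) (m k : ℤ)
    (hm : m = 1 ∨ m = -1) (hk : k = 1 ∨ k = -1)
    (h : single p1 m + single p2 (2 * m) + single p3 (3 * m) =
      single r1 k + single r2 (2 * k) + single r3 (3 * k)) : p1 = r1 ∧ p2 = r2 ∧ p3 = r3 := by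
  have e1 := DFunLike.congr_fun h p1
  have e2 := DFunLike.congr_fun h p2
  have e3 := DFunLike.congr_fun h p3
  simp only [Finsupp.add_apply, single_eq_same, single_eq_of_ne h12, single_eq_of_ne h13,
    single_eq_of_ne h12.symm, single_eq_of_ne h23, single_eq_of_ne h13.symm,
    single_eq_of_ne h23.symm] at e1 e2 e3
  have key : ∀ p : F, (p = r1 ∧ (single r1 k + single r2 (2 * k) + single r3 (3 * k) : F →₀ ℤ) p = k) ∨
      (p = r2 ∧ (single r1 k + single r2 (2 * k) + single r3 (3 * k) : F →₀ ℤ) p = 2 * k) ∨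
      (p = r3 ∧ (single r1 k + single r2 (2 * k) + single r3 (3 * k) : F →₀ ℤ) p = 3 * k) ∨
      (single r1 k + single r2 (2 * k) + single r3 (3 * k) : F →₀ ℤ) p = 0 := by
    intro p
    by_cases q1 : p = r1
    · subst q1
      left
      refine ⟨rfl, ?_⟩
      simp only [Finsupp.add_apply, single_eq_same, single_eq_of_ne k12, single_eq_of_ne k13]
      ring
    · by_cases q2 : p = r2
      · subst q2
        right; left
        refine ⟨rfl, ?_⟩
        simp only [Finsupp.add_apply, single_eq_same, single_eq_of_ne k12.symm,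
          single_eq_of_ne k23]
        ring
      · by_cases q3 : p = r3
        · subst q3
          right; right; left
          refine ⟨rfl, ?_⟩
          simp only [Finsupp.add_apply, single_eq_same, single_eq_of_ne k13.symm,
            single_eq_of_ne k23.symm]
          ring
        · right; right; right
          simp only [Finsupp.add_apply, single_eq_of_ne q1, single_eq_of_ne q2,
            single_eq_of_ne q3]
          ring
  have z1 := key p1
  have z2 := key p2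
  have z3 := key p3
  simp only [Finsupp.add_apply] at z1 z2 z3
  refine ⟨?_, ?_, ?_⟩
  · rcases z1 with ⟨z, _⟩ | ⟨_, z⟩ | ⟨_, z⟩ | z
    · exact z
    · omega
    · omega
    · omega
  · rcases z2 with ⟨_, z⟩ | ⟨z, _⟩ | ⟨_, z⟩ | z
    · omega
    · exact z
    · omega
    · omega
  · rcases z3 with ⟨_, z⟩ | ⟨_, z⟩ | ⟨z, _⟩ | z
    · omega
    · omega
    · exact z
    · omega

theorem tr_t0_smul (c : F) (k : ℤ) : k • tr c t0 =
    single c k + single (c * ga) (2 * k) + single (c * (ga * gb)) (3 * k) := by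
  rw [tr_t0, smul_add, smul_add, Finsupp.smul_single, Finsupp.smul_single, Finsupp.smul_single]
  simp only [smul_eq_mul, mul_one, one_mul, mul_comm k]

theorem dist_t0 (c : F) : c ≠ c * ga ∧ c ≠ c * (ga * gb) ∧ c * ga ≠ c * (ga * gb) := by
  refine ⟨?_, ?_, ?_⟩
  · intro h
    exact ga_ne (mul_eq_left.1 h.symm)
  · intro h
    exact gab_ne (mul_eq_left.1 h.symm)
  · intro h
    have := mul_left_cancel h
    exact gb_ne (mul_eq_left.1 this.symm)

theorem tr_t0_ne_single (c r : F) (k n : ℤ) (hk : k = 1 ∨ k = -1) : k • tr c t0 ≠ single r n := by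
  rw [tr_t0_smul]
  obtain ⟨h1, h2, h3⟩ := dist_t0 c
  exact triple_single h1 h2 h3 k hk r n

/-- decoding -/
theorem mem_code (X : F → ℕ → Bool) (x : W) (hx : x.g = 1) (c : F) (n : ℕ) (m : ℤ)
    (hm : m = 1 ∨ m = -1) (hv : x.v = m • single c ((n : ℤ) + 1)) : x ∈ SX X ↔ X c n = true := by
  rw [Finsupp.smul_single, smul_eq_mul] at hv
  constructor
  · rintro ⟨-, h⟩
    rcases h with ⟨d, h | h⟩ | ⟨d, k, hX, h | h⟩
    · exfalso
      apply tr_t0_ne_single d c 1 (m * (n + 1)) (Or.inl rfl)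
      rw [one_smul, ← h, hv]
    · exfalso
      apply tr_t0_ne_single d c (-1) (m * (n + 1)) (Or.inr rfl)
      rw [neg_smul, one_smul, ← h, hv]
    · rw [hv, Finsupp.single_eq_single_iff] at h
      rcases h with ⟨h1, h2⟩ | ⟨h1, h2⟩
      · have : k = n := by
          rcases hm with rfl | rfl <;> omega
        rw [h1, ← this]
        exact hX
      · exfalso
        rcases hm with rfl | rfl <;> omega
    · rw [hv, ← Finsupp.single_neg, Finsupp.single_eq_single_iff] at h
      rcases h with ⟨h1, h2⟩ | ⟨h1, h2⟩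
      · have : k = n := by
          rcases hm with rfl | rfl <;> omega
        rw [h1, ← this]
        exact hX
      · exfalso
        rcases hm with rfl | rfl <;> omega
  · intro hX
    refine ⟨hx, Or.inr ⟨c, n, hX, ?_⟩⟩
    rcases hm with rfl | rfl
    · left
      rw [hv, one_mul]
    · right
      rw [hv, ← Finsupp.single_neg]
      congr 1
      ring

/-- automorphisms of the wreath product preserving the coding sets are essentially shifts -/
theorem decode (X X' : F → ℕ → Bool) (α : W ≃* W)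
    (hα : ∀ g, g ≠ 1 → (g ∈ SX X ↔ α g ∈ SX X')) : ∃ c0 : F, ∀ c n, X c n = X' (c0 * c) n := by
  obtain ⟨β, c0, m, hm, h1, h2⟩ := rigidity (Wr.exE : Ext F W) (Wr.exE : Ext F W) α
  have h1' : ∀ x : W, (α x).g = β x.g := h1
  have h2' : ∀ x : W, x.g = 1 → (α x).v = m • x.v.mapDomain (fun q => β q * c0) := h2
  have hT : (⟨t0, 1⟩ : W) ∈ SX X := ⟨rfl, Or.inl ⟨1, Or.inl (tr_one t0).symm⟩⟩
  have hT1 : (⟨t0, 1⟩ : W) ≠ 1 := by
    intro h
    have h3 : t0 = 0 := congrArg Wr.v h
    have h4 := DFunLike.congr_fun h3 1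
    unfold t0 at h4
    simp only [Finsupp.add_apply, single_eq_same, single_eq_of_ne ga_ne.symm,
      single_eq_of_ne gab_ne.symm, Finsupp.coe_zero, Pi.zero_apply] at h4
    omega
  have hαT := (hα _ hT1).1 hT
  have hvT : (α ⟨t0, 1⟩).v = single c0 m + single (β ga * c0) (2 * m) +
      single (β (ga * gb) * c0) (3 * m) := by
    rw [h2' _ rfl]
    show m • (t0.mapDomain _) = _
    unfold t0
    rw [Finsupp.mapDomain_add, Finsupp.mapDomain_add, Finsupp.mapDomain_single,
      Finsupp.mapDomain_single, Finsupp.mapDomain_single, map_one, one_mul, smul_add, smul_add,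
      Finsupp.smul_single, Finsupp.smul_single, Finsupp.smul_single]
    simp only [smul_eq_mul, mul_one, one_mul, mul_comm m]
  have d1 : c0 ≠ β ga * c0 := by
    intro h
    have := mul_eq_right.1 h.symm
    rw [map_eq_one_iff β β.injective] at this
    exact ga_ne this
  have d2 : c0 ≠ β (ga * gb) * c0 := by
    intro h
    have := mul_eq_right.1 h.symm
    rw [map_eq_one_iff β β.injective] at this
    exact gab_ne this
  have d3 : β ga * c0 ≠ β (ga * gb) * c0 := by
    intro h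
    have := β.injective (mul_right_cancel h)
    exact gb_ne (mul_eq_left.1 this.symm)
  have hmain : β ga * c0 = c0 * ga ∧ β (ga * gb) * c0 = c0 * (ga * gb) := by
    obtain ⟨-, h⟩ := hαT
    have fin : ∀ (d : F) (k : ℤ), (k = 1 ∨ k = -1) → (α ⟨t0, 1⟩).v = k • tr d t0 →
        β ga * c0 = c0 * ga ∧ β (ga * gb) * c0 = c0 * (ga * gb) := by
      intro d k hk hd
      rw [hvT, tr_t0_smul] at hd
      obtain ⟨e1, e2, e3⟩ := dist_t0 d
      obtain ⟨f1, f2, f3⟩ := triple_triple d1 d2 d3 e1 e2 e3 m k hm hk hd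
      rw [f1]
      exact ⟨by rw [← f2, f1], by rw [← f3, f1]⟩
    rcases h with ⟨d, h | h⟩ | ⟨d, k, hX, h | h⟩
    · exact fin d 1 (Or.inl rfl) (by rw [one_smul, h])
    · exact fin d (-1) (Or.inr rfl) (by rw [neg_smul, one_smul, h])
    · exfalso
      rw [hvT] at h
      exact triple_single d1 d2 d3 m hm _ _ h
    · exfalso
      rw [hvT, ← Finsupp.single_neg] at h
      exact triple_single d1 d2 d3 m hm _ _ h
  have hβ : ∀ c : F, β c * c0 = c0 * c := by
    have ea : β ga = c0 * ga * c0⁻¹ := by rw [← hmain.1]; group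
    have eb : β gb = c0 * gb * c0⁻¹ := by
      have h3 := hmain.2
      rw [map_mul, ea] at h3
      have h4 : (c0 * ga) * (c0⁻¹ * β gb * c0) = (c0 * ga) * gb := by
        calc (c0 * ga) * (c0⁻¹ * β gb * c0) = c0 * ga * c0⁻¹ * β gb * c0 := by group
          _ = c0 * (ga * gb) := h3
          _ = (c0 * ga) * gb := (mul_assoc _ _ _).symm
      have h5 : c0⁻¹ * β gb * c0 = gb := mul_left_cancel h4
      calc β gb = c0 * (c0⁻¹ * β gb * c0) * c0⁻¹ := by group
        _ = c0 * gb * c0⁻¹ := by rw [h5]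
    have hhom : β.toMonoidHom = (MulAut.conj c0).toMonoidHom := by
      apply FreeGroup.ext_hom
      intro i
      fin_cases i
      · exact ea
      · exact eb
    intro c
    have h3 : β c = c0 * c * c0⁻¹ := DFunLike.congr_fun hhom c
    rw [h3]; group
  refine ⟨c0, fun c n => ?_⟩
  have hx1 : (⟨single c ((n : ℤ) + 1), 1⟩ : W) ≠ 1 := by
    intro h
    have h3 : single c ((n : ℤ) + 1) = 0 := congrArg Wr.v h
    rw [Finsupp.single_eq_zero] at h3
    omega
  have h3 := hα _ hx1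
  rw [mem_code X _ rfl c n 1 (Or.inl rfl) (by rw [one_smul])] at h3
  rw [mem_code X' _ (by rw [h1', map_one]) (c0 * c) n m hm (by
    rw [h2' _ rfl, Finsupp.mapDomain_single, hβ])] at h3
  rw [Bool.eq_iff_iff]
  exact h3

/-- shifted functions have conjugate coding sets -/
theorem SX_conj (X X' : F → ℕ → Bool) (c0 : F) (h : ∀ c n, X c n = X' (c0 * c) n) (x : W) :
    x ∈ SX X → MulAut.conj (⟨0, c0⟩ : W) x ∈ SX X' := by
  rintro ⟨h1, h2⟩
  have hv : (MulAut.conj (⟨0, c0⟩ : W) x).v = tr c0 x.v := by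
    rw [MulAut.conj_apply, Wr.mul_v, Wr.mul_v, Wr.inv_v, Wr.mul_g, h1]
    simp
  refine ⟨?_, ?_⟩
  · rw [MulAut.conj_apply, Wr.mul_g, Wr.mul_g, Wr.inv_g, h1]
    simp
  · rw [hv]
    rcases h2 with ⟨c, h2 | h2⟩ | ⟨c, n, hX, h2 | h2⟩
    · exact Or.inl ⟨c0 * c, Or.inl (by rw [h2, tr_mul])⟩
    · exact Or.inl ⟨c0 * c, Or.inr (by rw [h2, tr_mul, map_neg])⟩
    · exact Or.inr ⟨c0 * c, n, by rw [← h]; exact hX, Or.inl (by rw [h2, tr_single])⟩
    · exact Or.inr ⟨c0 * c, n, by rw [← h]; exact hX, Or.inr (by rw [h2, map_neg, tr_single])⟩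

theorem PX_conj (X X' : F → ℕ → Bool) (c0 : F) (h : ∀ c n, X c n = X' (c0 * c) n) (x : W) :
    x ∈ PX X ↔ MulAut.conj (⟨0, c0⟩ : W) x ∈ PX X' := by
  have hS : x ∈ SX X ↔ MulAut.conj (⟨0, c0⟩ : W) x ∈ SX X' := by
    constructor
    · exact SX_conj X X' c0 h x
    · intro h'
      have h3 := SX_conj X' X c0⁻¹ (fun c n => by rw [h, mul_inv_cancel_left]) _ h'
      have e : (⟨0, c0⁻¹⟩ : W) = (⟨0, c0⟩ : W)⁻¹ := by
        ext1
        · rw [Wr.inv_v]; simp
        · rw [Wr.inv_g]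
      rw [e, ← MulAut.mul_apply, ← map_mul, inv_mul_cancel, map_one] at h3
      exact h3
  have hO : 1 < x ↔ 1 < MulAut.conj (⟨0, c0⟩ : W) x := by
    rw [MulAut.conj_apply]
    constructor
    · intro h1
      have h2 := mul_lt_mul_left (mul_lt_mul_right h1 (⟨0, c0⟩ : W)) (⟨0, c0⟩ : W)⁻¹
      rwa [mul_one, mul_inv_cancel] at h2
    · intro h1
      have h2 := mul_lt_mul_left (mul_lt_mul_right h1 (⟨0, c0⟩ : W)⁻¹) (⟨0, c0⟩ : W)
      rw [mul_one, inv_mul_cancel] at h2
      convert h2 using 1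
      group
  exact and_congr hO (not_congr hS)

theorem comm_kap {Q : Type} [Group Q] (P : Set Q) (e x : GG Q P) (he : e.q = 1) (hx : x.q = 1)
    (q0 r : Q) (m : ℤ) (hm : m * m = 1) (hev : e.v = single q0 m) (hxv : x.v = single r m) :
    e * x = x * e ↔ kap P (q0⁻¹ * r) = kap P (q0⁻¹ * r)⁻¹ := by
  rw [GG.comm_iff _ _ he hx, hev, hxv, bet_single, bet_single, hm, one_smul, one_smul,
    mul_inv_rev, inv_inv]

theorem comm_coe {G : Type} [Group G] (H : Subgroup G) (e x : H) :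
    e * x = x * e ↔ (e : G) * (x : G) = (x : G) * (e : G) := by
  constructor
  · intro h
    exact congrArg Subtype.val h
  · intro h
    exact Subtype.ext h

/-- the abstract form of the next theorem -/
theorem iso_decode_aux {Q : Type} [Group Q] [Infinite Q] [TwoUniqueProds Q] (P P' : Set Q)
    (H : Subgroup (GG Q P)) (H' : Subgroup (GG Q P'))
    (h1 : ∀ q, GG.io q ∈ H) (h2 : GG.el ∈ H) (h1' : ∀ q, GG.io q ∈ H') (h2' : GG.el ∈ H')
    (φ : H ≃* H') : ∃ α : Q ≃* Q, ∀ g, kap P g = kap P g⁻¹ ↔ kap P' (α g) = kap P' (α g)⁻¹ := by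
  obtain ⟨β, q0, m, hm, e1, e2⟩ := rigidity (GG.exE H h1 h2) (GG.exE H' h1' h2') φ
  have hmm : m * m = 1 := by rcases hm with rfl | rfl <;> norm_num
  have e1' : ∀ x : H, (φ x : GG Q P').q = β (x : GG Q P).q := e1
  have e2' : ∀ x : H, (x : GG Q P).q = 1 → (φ x : GG Q P').v =
    m • (x : GG Q P).v.mapDomain (fun q => β q * q0) := e2
  refine ⟨β.trans (MulAut.conj q0⁻¹), ?_⟩
  intro g
  have hval : (β.trans (MulAut.conj q0⁻¹)) g = q0⁻¹ * (β g * q0) := by
    rw [MulEquiv.trans_apply, MulAut.conj_apply, inv_inv, mul_assoc]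
  obtain ⟨e, he⟩ : ∃ e : H, (e : GG Q P) = GG.el := ⟨⟨GG.el, h2⟩, rfl⟩
  obtain ⟨x, hx⟩ : ∃ x : H, (x : GG Q P) = ⟨0, single g 1, 1⟩ := by
    refine ⟨⟨GG.io g * GG.el * (GG.io g)⁻¹, ?_⟩, GG.conj_el g⟩
    exact H.mul_mem (H.mul_mem (h1 g) h2) (H.inv_mem (h1 g))
  have heq : (e : GG Q P).q = 1 := by rw [he]; rfl
  have hev : (e : GG Q P).v = single 1 1 := by rw [he]; rfl
  have hxq : (x : GG Q P).q = 1 := by rw [hx]
  have hxv : (x : GG Q P).v = single g 1 := by rw [hx]
  have c1 := comm_kap P e x heq hxq 1 g 1 (by norm_num) hev hxv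
  rw [inv_one, one_mul] at c1
  have f1 : (φ e : GG Q P').q = 1 := by rw [e1', heq, map_one]
  have f2 : (φ x : GG Q P').q = 1 := by rw [e1', hxq, map_one]
  have g1 : (φ e : GG Q P').v = single q0 m := by
    rw [e2' e heq, hev, Finsupp.mapDomain_single, map_one, one_mul, Finsupp.smul_single,
      smul_eq_mul, mul_one]
  have g2 : (φ x : GG Q P').v = single (β g * q0) m := by
    rw [e2' x hxq, hxv, Finsupp.mapDomain_single, Finsupp.smul_single, smul_eq_mul, mul_one]
  have c2 := comm_kap P' (φ e) (φ x) f1 f2 q0 (β g * q0) m hmm g1 g2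
  rw [hval, ← c1, ← c2, ← comm_coe, ← comm_coe, ← map_mul, ← map_mul, φ.injective.eq_iff]

/-- isomorphic groups have shifted codes -/
theorem iso_decode (X X' : F → ℕ → Bool) (H : Subgroup (GG W (PX X))) (H' : Subgroup (GG W (PX X')))
    (h1 : ∀ q, GG.io q ∈ H) (h2 : GG.el ∈ H) (h1' : ∀ q, GG.io q ∈ H') (h2' : GG.el ∈ H')
    (φ : H ≃* H') : ∃ c0 : F, ∀ c n, X c n = X' (c0 * c) n := by
  obtain ⟨α, hα⟩ := iso_decode_aux (PX X) (PX X') H H' h1 h2 h1' h2' φ
  refine decode X X' α ?_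
  intro g hg
  have hg' : α g ≠ 1 := by
    intro h
    exact hg ((map_eq_one_iff α α.injective).1 h)
  rw [← kap_iff X g hg, ← kap_iff X' _ hg']
  exact hα g

end

end Pool.Agent.H139R3.BO
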