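import Mathlib
import Pool.Agent.H139R3.BO.Code
import Pool.Agent.H139R3.FM

set_option autoImplicit false

/-!
# The finitely generated bi-orderable groups coding functions on the free group
-/

namespace Pool.Agent.H139R3.BO

open Finsupp MeasureTheory

noncomputable section

universe u

/-- images of the generators -/
def gens (P : Set W) : ℕ → GG W P
  | 0 => GG.io ⟨0, ga⟩
  | 1 => GG.io ⟨0, gb⟩
  | 2 => GG.io ⟨single 1 1, 1⟩
  | 3 => GG.el
  | _ => 1

/-- the defining homomorphism -/
def rX (P : Set W) : FreeGroup ℕ →* GG W P := FreeGroup.lift (gens P)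

theorem rX_of (P : Set W) (i : ℕ) : rX P (FreeGroup.of i) = gens P i := by
  unfold rX
  rw [FreeGroup.lift_apply_of]

/-- inclusion of the free group in the wreath product -/
def inW : F →* W where
  toFun q := ⟨0, q⟩
  map_one' := rfl
  map_mul' q r := by
    ext1
    · rw [Wr.mul_v]; simp
    · rw [Wr.mul_g]

theorem io_mem (P : Set W) (x : W) : GG.io x ∈ (rX P).range := by
  have h0 : ∀ q : F, GG.io (⟨0, q⟩ : W) ∈ (rX P).range := by
    intro q
    have h1 : ∀ i, inW (FreeGroup.of i) ∈ ((rX P).range).comap GG.io := by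
      intro i
      fin_cases i
      · exact ⟨FreeGroup.of 0, rX_of P 0⟩
      · exact ⟨FreeGroup.of 1, rX_of P 1⟩
    have h2 : inW q ∈ ((rX P).range).comap GG.io := by
      induction q using FreeGroup.induction_on with
      | C1 => rw [map_one]; exact one_mem _
      | of i => exact h1 i
      | inv_of i _ => rw [map_inv]; exact inv_mem (h1 i)
      | mul x y hx hy => rw [map_mul]; exact mul_mem hx hy
    exact h2
  exact Wr.mem_of_gens (((rX P).range).comap GG.io) h0 ⟨FreeGroup.of 2, rX_of P 2⟩ x

theorem el_mem (P : Set W) : GG.el ∈ (rX P).range := ⟨FreeGroup.of 3, rX_of P 3⟩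

/-- the range is generated by the section and the distinguished element -/
theorem range_eq (P : Set W) : (rX P).range = Subgroup.closure (Set.range GG.io ∪ {GG.el}) := by
  apply le_antisymm
  · rintro _ ⟨g, rfl⟩
    have h1 : ∀ i, rX P (FreeGroup.of i) ∈
        Subgroup.closure (Set.range (GG.io : W →* GG W P) ∪ {GG.el}) := by
      intro i
      rw [rX_of]
      match i with
      | 0 => exact Subgroup.subset_closure (Or.inl ⟨_, rfl⟩)
      | 1 => exact Subgroup.subset_closure (Or.inl ⟨_, rfl⟩)
      | 2 => exact Subgroup.subset_closure (Or.inl ⟨_, rfl⟩)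
      | 3 => exact Subgroup.subset_closure (Or.inr rfl)
      | (n + 4) => exact one_mem _
    induction g using FreeGroup.induction_on with
    | C1 => rw [map_one]; exact one_mem _
    | of i => exact h1 i
    | inv_of i _ => rw [map_inv]; exact inv_mem (h1 i)
    | mul x y hx hy => rw [map_mul]; exact mul_mem hx hy
  · rw [Subgroup.closure_le]
    rintro _ (⟨x, rfl⟩ | h)
    · exact io_mem P x
    · rw [Set.mem_singleton_iff.1 h]
      exact el_mem P

theorem map_range {P P' : Set W} (α : W ≃* W) (hα : ∀ g, g ∈ P ↔ α g ∈ P') :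
    (rX P).range.map (GG.mapH α hα).toMonoidHom = (rX P').range := by
  rw [range_eq, range_eq, MonoidHom.map_closure, Set.image_union, Set.image_singleton]
  congr 2
  · ext x
    constructor
    · rintro ⟨_, ⟨w, rfl⟩, rfl⟩
      exact ⟨α w, (GG.mapH_io α hα w).symm⟩
    · rintro ⟨w, rfl⟩
      refine ⟨_, ⟨α.symm w, rfl⟩, ?_⟩
      show GG.mapH α hα (GG.io (α.symm w)) = _
      rw [GG.mapH_io, MulEquiv.apply_symm_apply]
  · have : (GG.mapH α hα).toMonoidHom GG.el = GG.el := GG.mapH_el α hα
    rw [this]

/-- shifted codes give isomorphic groups -/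
theorem iso_of_shift (X X' : F → ℕ → Bool) (c0 : F) (h : ∀ c n, X c n = X' (c0 * c) n) :
    Nonempty ((rX (PX X)).range ≃* (rX (PX X')).range) := by
  have hα := PX_conj X X' c0 h
  exact ⟨((GG.mapH _ hα).subgroupMap (rX (PX X)).range).trans
    (MulEquiv.subgroupCongr (map_range _ hα))⟩

/-- isomorphic groups have shifted codes -/
theorem shift_of_iso (X X' : F → ℕ → Bool)
    (h : Nonempty ((rX (PX X)).range ≃* (rX (PX X')).range)) :
    ∃ c0 : F, ∀ c n, X c n = X' (c0 * c) n := by
  obtain ⟨φ⟩ := h
  exact iso_decode X X' _ _ (io_mem _) (el_mem _) (io_mem _) (el_mem _) φ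

/-- the positive elements -/
def Pos : Set W := {x | 1 < x}

theorem PX_sub (X : F → ℕ → Bool) : PX X ⊆ Pos := fun _ h => h.1

theorem rX_eq (X : F → ℕ → Bool) (h : FreeGroup ℕ) :
    rX (PX X) h = GG.res (PX_sub X) (rX Pos h) := by
  have : rX (PX X) = (GG.res (PX_sub X)).comp (rX Pos) := by
    apply FreeGroup.ext_hom
    intro i
    rw [MonoidHom.comp_apply, rX_of, rX_of]
    match i with
    | 0 => exact (GG.res_io _ _).symm
    | 1 => exact (GG.res_io _ _).symm
    | 2 => exact (GG.res_io _ _).symm
    | 3 => exact (GG.res_el _).symm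
    | (n + 4) => exact (map_one _).symm
  rw [this]
  rfl

theorem rX_one_iff (X : F → ℕ → Bool) (h : FreeGroup ℕ) : rX (PX X) h = 1 ↔
    ((rX Pos h).v = 0 ∧ (rX Pos h).q = 1) ∧ ∀ g ∈ (rX Pos h).z.support, g ∉ PX X := by
  classical
  rw [rX_eq]
  constructor
  · intro h1
    refine ⟨⟨congrArg GG.v h1, congrArg GG.q h1⟩, ?_⟩
    intro g hg hP
    have h2 : (rX Pos h).z.filter (· ∈ PX X) = 0 := congrArg GG.z h1
    have h3 := DFunLike.congr_fun h2 g
    rw [Finsupp.filter_apply_pos _ _ hP] at h3
    exact Finsupp.mem_support_iff.1 hg h3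
  · rintro ⟨⟨h1, h2⟩, h3⟩
    ext1
    · show (rX Pos h).z.filter (· ∈ PX X) = 0
      rw [Finsupp.filter_eq_zero_iff]
      intro g hg
      by_contra hne
      exact h3 g (Finsupp.mem_support_iff.2 hne) hg
    · exact h1
    · exact h2

section meas

variable {Y : Type u} [MeasurableSpace Y] (X : Y → F → ℕ → Bool)
  (hX : ∀ c n, Measurable (fun y => X y c n))

include hX in
theorem measurable_SX (x : W) : MeasurableSet {y | x ∈ SX (X y)} := by
  have e : {y | x ∈ SX (X y)} = {y | x.g = 1} ∩ ({y | ∃ c, x.v = tr c t0 ∨ x.v = -(tr c t0)} ∪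
    ⋃ (c : F) (n : ℕ), ({y | X y c n = true} ∩
      {y | x.v = single c ((n : ℤ) + 1) ∨ x.v = - single c ((n : ℤ) + 1)})) := by
    ext y
    simp only [SX, Set.mem_setOf_eq, Set.mem_inter_iff, Set.mem_union, Set.mem_iUnion]
  rw [e]
  refine MeasurableSet.inter (MeasurableSet.const _) (MeasurableSet.union (MeasurableSet.const _) ?_)
  refine MeasurableSet.iUnion fun c => MeasurableSet.iUnion fun n => ?_
  exact ((measurableSet_singleton true).preimage (hX c n)).inter (MeasurableSet.const _)

include hX in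
theorem measurable_rX (h : FreeGroup ℕ) : MeasurableSet {y | rX (PX (X y)) h = 1} := by
  have e : {y | rX (PX (X y)) h = 1} = {y | (rX Pos h).v = 0 ∧ (rX Pos h).q = 1} ∩
      ⋂ g ∈ (rX Pos h).z.support, ({y | 1 < g} ∩ {y | g ∈ SX (X y)}ᶜ)ᶜ := by
    ext y
    simp only [Set.mem_setOf_eq, Set.mem_inter_iff, Set.mem_iInter, Set.mem_compl_iff]
    rw [rX_one_iff]
    rfl
  rw [e]
  refine MeasurableSet.inter (MeasurableSet.const _) ?_
  refine Finset.measurableSet_biInter _ fun g _ => ?_
  exact ((MeasurableSet.const _).inter (measurable_SX X hX g).compl).compl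

end meas

section act

variable {Y : Type u} (s : ℕ → Y → Y) (hs : ∀ n x, s n (s n x) = x)

def ba : Equiv.Perm (Y × ℤ) where
  toFun p := (p.1, p.2 + 1)
  invFun p := (p.1, p.2 - 1)
  left_inv p := by simp
  right_inv p := by simp

def bb : Equiv.Perm (Y × ℤ) where
  toFun p := (s p.2.natAbs p.1, p.2)
  invFun p := (s p.2.natAbs p.1, p.2)
  left_inv p := by simp [hs]
  right_inv p := by simp [hs]

/-- the action of the free group on `Y × ℤ` -/
def ac : F →* Equiv.Perm (Y × ℤ) := FreeGroup.lift ![ba, bb s hs]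

theorem ac_a : ac s hs ga = ba := by simp [ac, ga]
theorem ac_b : ac s hs gb = bb s hs := by simp [ac, gb]

theorem ac_pow (k : ℕ) (y : Y) : ac s hs (ga ^ k) (y, 0) = (y, (k : ℤ)) := by
  induction k with
  | zero => simp
  | succ k ih =>
    rw [pow_succ', map_mul, Equiv.Perm.mul_apply, ih, ac_a]
    simp [ba]

theorem ac_move (k : ℕ) (y : Y) : ac s hs ((ga ^ k)⁻¹ * gb * ga ^ k) (y, 0) = (s k y, 0) := by
  rw [map_mul, map_mul, Equiv.Perm.mul_apply, Equiv.Perm.mul_apply, ac_pow, ac_b, map_inv,
    Equiv.Perm.inv_eq_iff_eq, ac_pow]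
  simp [bb]

theorem ac_rel (R : Y → Y → Prop) (hR : Equivalence R) (hsR : ∀ n x, R x (s n x)) (c : F)
    (p : Y × ℤ) : R p.1 (ac s hs c p).1 := by
  have hinv : ∀ c, (∀ p : Y × ℤ, R p.1 (ac s hs c p).1) → ∀ p : Y × ℤ, R p.1 (ac s hs c⁻¹ p).1 := by
    intro c hc p
    have := hc (ac s hs c⁻¹ p)
    rw [← Equiv.Perm.mul_apply, ← map_mul, mul_inv_cancel, map_one] at this
    exact hR.symm this
  have hgen : ∀ (i : Fin 2) (p : Y × ℤ), R p.1 (ac s hs (FreeGroup.of i) p).1 := by
    intro i p
    fin_cases i
    · show R p.1 (ac s hs ga p).1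
      rw [ac_a]
      exact hR.refl _
    · show R p.1 (ac s hs gb p).1
      rw [ac_b]
      exact hsR _ _
  revert p
  induction c using FreeGroup.induction_on with
  | C1 => intro p; rw [map_one]; exact hR.refl _
  | of i => exact hgen i
  | inv_of i ih => exact hinv _ ih
  | mul x y hx hy =>
    intro p
    rw [map_mul, Equiv.Perm.mul_apply]
    exact hR.trans (hy p) (hx _)

theorem measurable_ac [MeasurableSpace Y] (hm : ∀ n, Measurable (s n)) (c : F) :
    Measurable (ac s hs c) := by
  have ma : Measurable (ba : Equiv.Perm (Y × ℤ)) := by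
    refine measurable_from_prod_countable_left ?_
    intro n
    show Measurable (fun y : Y => (y, n + 1))
    exact measurable_id.prodMk measurable_const
  have ma' : Measurable (ba⁻¹ : Equiv.Perm (Y × ℤ)) := by
    refine measurable_from_prod_countable_left ?_
    intro n
    show Measurable (fun y : Y => (y, n - 1))
    exact measurable_id.prodMk measurable_const
  have mb : Measurable (bb s hs : Equiv.Perm (Y × ℤ)) := by
    refine measurable_from_prod_countable_left ?_
    intro n
    show Measurable (fun y : Y => (s n.natAbs y, n))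
    exact (hm _).prodMk measurable_const
  induction c using FreeGroup.induction_on with
  | C1 => rw [map_one]; exact measurable_id
  | of i =>
    fin_cases i
    · show Measurable (ac s hs ga)
      rw [ac_a]
      exact ma
    · show Measurable (ac s hs gb)
      rw [ac_b]
      exact mb
  | inv_of i ih =>
    fin_cases i
    · show Measurable (ac s hs ga⁻¹)
      rw [map_inv, ac_a]
      exact ma'
    · show Measurable (ac s hs gb⁻¹)
      rw [map_inv, ac_b]
      exact mb
  | mul x y hx hy =>
    rw [map_mul]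
    exact hx.comp hy

end act

/-- quotient by the kernel, up to equality of subgroups -/
def quoRange {G K : Type} [Group G] [Group K] (φ : G →* K) (N : Subgroup G) [N.Normal]
    (hN : N = φ.ker) : G ⧸ N ≃* φ.range :=
  (QuotientGroup.quotientMulEquivOfEq hN).trans (QuotientGroup.quotientKerEquivRange φ)

theorem exists_order {G : Type} [Group G] (P : Set W) (e : G →* GG W P)
    (he : Function.Injective e) : ∃ o : LinearOrder G, ∀ a b c : G, o.le a b →
      o.le (c * a) (c * b) ∧ o.le (a * c) (b * c) := by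
  refine ⟨LinearOrder.lift' e he, ?_⟩
  intro a b c hab
  have h1 : e a ≤ e b := hab
  refine ⟨?_, ?_⟩
  · show e (c * a) ≤ e (c * b)
    rw [map_mul, map_mul]
    rcases h1.lt_or_eq with h | h
    · exact (mul_lt_mul_right h _).le
    · rw [h]
  · show e (a * c) ≤ e (b * c)
    rw [map_mul, map_mul]
    rcases h1.lt_or_eq with h | h
    · exact (mul_lt_mul_left h _).le
    · rw [h]

end

end Pool.Agent.H139R3.BO
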